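import Pool.Agent.Y789.MF.Inn
import Pool.Agent.Y486.Stm

/-!
# The dimension of the space of automorphic forms
-/

set_option autoImplicit false

open scoped MatrixGroups UpperHalfPlane ComplexConjugate NNReal ENNReal Topology
open MeasureTheory UpperHalfPlane Set Filter

namespace Pool.Agent.Y789.MF

open Pool.Agent.W711.KC (jj nn jj_ne im_mob jj_mul nn_mul det_eq CG CG_far)
open Pool.Agent.TH997.KG (VV isOpen_VV mob mob_coe isCompact_pre)
open Pool.Agent.TH598.KG (Cutoff)
open Pool.Agent.H85R3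
open Pool.Agent.Y486 (WW IsMF St_MF)

variable {Γ : Subgroup SL(2, ℝ)} {m : ℕ} {φ : ℂ → ℝ}

/-- the constant `(m - 1) / (4 π)` -/
noncomputable def cm (m : ℕ) : ℝ := ((m : ℝ) - 1) / (4 * Real.pi)

theorem cm_pos (hm : 4 ≤ m) : 0 < cm m := by
  have : (4 : ℝ) ≤ m := by exact_mod_cast hm
  have := Real.pi_pos
  unfold cm
  refine div_pos (by linarith) (by positivity)

theorem re_inner_Pw (hM : HS.MovesFar Γ 1) (hm : 4 ≤ m) (w : ℍ) :
    |(ev (Pw hM hm w) w).re * w.im ^ m - cm m| ≤ cm m * (CC * q0 ^ (m - 4)) := by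
  have h1 := PP_diag hM hm w
  have h2 : ev (Pw hM hm w) w = (cm m : ℂ) * PP Γ m w w := rfl
  have h3 : (ev (Pw hM hm w) w).re * w.im ^ m - cm m =
      cm m * (PP Γ m w w * (w.im : ℂ) ^ m - 1).re := by
    rw [h2, Complex.sub_re, Complex.one_re, ← Complex.ofReal_pow, Complex.re_mul_ofReal,
      Complex.re_ofReal_mul]
    ring
  rw [h3, abs_mul, abs_of_pos (cm_pos hm)]
  exact mul_le_mul_of_nonneg_left ((Complex.abs_re_le_norm _).trans h1) (cm_pos hm).le

theorem integrable_phiR (hφ : Cutoff Γ φ) {h : ℍ → ℝ} (hh : Continuous h) :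
    Integrable fun w : ℍ => φ w * h w := by
  have hc : Continuous fun w : ℍ => φ w * h w :=
    (hφ.smooth.continuous.comp UpperHalfPlane.continuous_coe).mul hh
  refine hc.integrable_of_hasCompactSupport ?_
  refine HasCompactSupport.intro (isCompact_pre hφ.compact.isCompact hφ.supp) fun w hw => ?_
  have : φ (w : ℂ) = 0 := image_eq_zero_of_notMem_tsupport hw
  rw [this, zero_mul]

/-- the area of the quotient -/
noncomputable def area (φ : ℂ → ℝ) : ℝ := ∫ w : ℍ, φ w

theorem area_nonneg (hφ : Cutoff Γ φ) : 0 ≤ area φ := integral_nonneg fun w => hφ.nonneg _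

theorem integrable_phi1 (hφ : Cutoff Γ φ) : Integrable fun w : ℍ => φ w := by
  simpa using integrable_phiR hφ (h := fun _ => 1) continuous_const

/-- The main estimate. -/
theorem main_est [Countable Γ] (hφ : Cutoff Γ φ) (hM : HS.MovesFar Γ 1) (hm : 4 ≤ m) :
    ∃ (N : ℕ) (b : Fin N → SF Γ m), LinearIndependent ℂ b ∧
      (∀ w : ℍ, ∑ i, ‖ev (b i) w‖ ^ 2 = (ev (Pw hM hm w) w).re) ∧
      (N : ℝ) = ∫ w : ℍ, φ w * ((∑ i, ‖ev (b i) w‖ ^ 2) * w.im ^ m) := by
  let _ : NormedAddCommGroup (SF Γ m) := (core hφ).toNormedAddCommGroup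
  let _ : InnerProductSpace ℂ (SF Γ m) := InnerProductSpace.ofCore (core hφ).toCore
  have hin : ∀ f h : SF Γ m, inner ℂ f h = ip φ f h := fun f h => rfl
  have hev : ∀ (w : ℍ) (f : SF Γ m), inner ℂ (Pw hM hm w) f = ev f w := fun w f => by
    rw [hin, ip_Pw hφ hM hm w f]
  -- the size of an orthonormal family
  have key : ∀ {n : ℕ} (b : Fin n → SF Γ m), Orthonormal ℂ b →
      (n : ℝ) = ∫ w : ℍ, φ w * ((∑ i, ‖ev (b i) w‖ ^ 2) * w.im ^ m) := by
    intro n b hb
    have h1 : ∀ i, ∫ w : ℍ, φ w * (‖ev (b i) w‖ ^ 2 * w.im ^ m) = 1 := by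
      intro i
      have h2 := inner_self_eq_norm_sq_to_K (𝕜 := ℂ) (b i)
      rw [hb.1 i, hin, ip_self] at h2
      have h3 := congrArg Complex.re h2
      simpa using h3
    have h2 : ∀ w : ℍ, φ w * ((∑ i, ‖ev (b i) w‖ ^ 2) * w.im ^ m) =
        ∑ i, φ w * (‖ev (b i) w‖ ^ 2 * w.im ^ m) := by
      intro w
      rw [Finset.sum_mul, Finset.mul_sum]
    simp only [h2]
    rw [integral_finsetSum]
    · simp only [h1]
      simp
    · intro i _
      exact integrable_phiR hφ (((ev_cont (b i)).norm.pow 2).mul (continuous_im'.pow m))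
  have hbessel : ∀ {n : ℕ} (b : Fin n → SF Γ m), Orthonormal ℂ b → ∀ w : ℍ,
      ∑ i, ‖ev (b i) w‖ ^ 2 ≤ (ev (Pw hM hm w) w).re := by
    intro n b hb w
    have h1 := hb.sum_inner_products_le (Pw hM hm w) (s := Finset.univ)
    have h2 : ∀ i, ‖inner ℂ (b i) (Pw hM hm w)‖ = ‖ev (b i) w‖ := by
      intro i
      rw [norm_inner_symm, hev]
    simp only [h2] at h1
    have h3 := inner_self_eq_norm_sq_to_K (𝕜 := ℂ) (Pw hM hm w)
    rw [hev] at h3
    rw [h3]
    refine h1.trans (le_of_eq ?_)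
    norm_cast
  -- the bound of the dimension
  set B : ℝ := cm m * (1 + CC * q0 ^ (m - 4)) * area φ with hB
  have hbound : ∀ {n : ℕ} (b : Fin n → SF Γ m), Orthonormal ℂ b → (n : ℝ) ≤ B := by
    intro n b hb
    rw [key b hb]
    have h1 : ∀ w : ℍ, φ w * ((∑ i, ‖ev (b i) w‖ ^ 2) * w.im ^ m) ≤
        φ w * (cm m * (1 + CC * q0 ^ (m - 4))) := by
      intro w
      refine mul_le_mul_of_nonneg_left ?_ (hφ.nonneg _)
      have h2 := mul_le_mul_of_nonneg_right (hbessel b hb w) (pow_pos w.im_pos m).le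
      have h3 := (abs_le.1 (re_inner_Pw hM hm w)).2
      linarith
    have hcont : Continuous fun w : ℍ => (∑ i, ‖ev (b i) w‖ ^ 2) * w.im ^ m :=
      (continuous_finsetSum _ fun i _ => (ev_cont (b i)).norm.pow 2).mul (continuous_im'.pow m)
    have h2 := integral_mono (integrable_phiR hφ hcont) (integrable_phiR hφ continuous_const) h1
    refine h2.trans (le_of_eq ?_)
    rw [integral_mul_const, hB, area, mul_comm]
  have hfd : FiniteDimensional ℂ (SF Γ m) := by
    have hr : Module.rank ℂ (SF Γ m) ≤ (⌊B⌋₊ : ℕ) := by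
      refine rank_le fun s hs => ?_
      have h1 : LinearIndependent ℂ (fun i : Fin s.card => ((s.equivFin.symm i : s) : SF Γ m)) :=
        hs.comp _ s.equivFin.symm.injective
      have h2 := InnerProductSpace.gramSchmidtNormed_orthonormal (𝕜 := ℂ) h1
      have h3 := hbound _ h2
      exact Nat.le_floor h3
    exact Module.rank_lt_aleph0_iff.1 (hr.trans_lt Cardinal.natCast_lt_aleph0)
  set b := stdOrthonormalBasis ℂ (SF Γ m) with hb
  refine ⟨Module.finrank ℂ (SF Γ m), b, b.orthonormal.linearIndependent, fun w => ?_,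
    key b b.orthonormal⟩
  have h1 := b.sum_sq_norm_inner_right (Pw hM hm w)
  have h2 : ∀ i, ‖inner ℂ (b i) (Pw hM hm w)‖ = ‖ev (b i) w‖ := by
    intro i
    rw [norm_inner_symm, hev]
  simp only [h2] at h1
  have h3 := inner_self_eq_norm_sq_to_K (𝕜 := ℂ) (Pw hM hm w)
  rw [hev] at h3
  rw [h3, h1]
  norm_cast

theorem WW_eq (φ : ℂ → ℝ) : WW φ = (1 / (4 * Real.pi)) * area φ := by
  unfold WW area
  rw [integral_H]
  congr 1
  refine setIntegral_congr_fun isOpen_VV.measurableSet fun z hz => ?_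
  rw [ofComplex_apply_of_im_pos hz, smul_eq_mul]
  change φ z / z.im ^ 2 = 1 / z.im ^ 2 * φ z
  ring

/-- The elementary bound of an exponential. -/
theorem exp_bound (q : ℝ) (h0 : 0 < q) (h1 : q < 1) :
    ∃ K : ℝ, ∀ m : ℕ, (m : ℝ) * q ^ m ≤ K := by
  have h := tendsto_self_mul_const_pow_of_lt_one h0.le h1
  obtain ⟨K, hK⟩ := h.bddAbove_range
  exact ⟨K, fun m => hK ⟨m, rfl⟩⟩

theorem t_MF : St_MF := by
  intro φ hφ
  have hM := CG_far
  have : Countable CG := hM.countable one_pos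
  set q : ℝ := √q0 with hq
  have hq0 : 0 < q := Real.sqrt_pos.2 q0_pos
  have hq1 : q < 1 := by
    rw [hq, Real.sqrt_lt' one_pos, one_pow]
    exact q0_lt
  have hqq : q ^ 2 = q0 := Real.sq_sqrt q0_pos.le
  obtain ⟨K0, hK0⟩ := exp_bound q hq0 hq1
  have hC := CC_pos
  have hA := area_nonneg hφ
  have hpi := Real.pi_pos
  have hW : 0 ≤ WW φ := by
    rw [WW_eq]
    positivity
  -- the threshold
  have htend : Tendsto (fun n : ℕ => CC * q0 ^ n) atTop (𝓝 (CC * 0)) :=
    (tendsto_pow_atTop_nhds_zero_of_lt_one q0_pos.le q0_lt).const_mul _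
  rw [mul_zero] at htend
  obtain ⟨n0, hn0⟩ := (htend.eventually (gt_mem_nhds one_pos)).exists_forall_of_atTop
  refine ⟨WW φ * CC / q0 ^ 4 * K0, q, hq0.le, hq1, n0 + 4, fun m hm => ?_⟩
  have hm4 : 4 ≤ m := by omega
  obtain ⟨N, b, hb, hsum, hN⟩ := main_est (m := m) hφ hM hm4
  refine ⟨N, fun i z => ev (b i) (ofComplex z), fun i => ?_, ?_, ?_, ?_⟩
  · refine ⟨ev_hol (b i), fun g hg z hz => ?_⟩
    have h1 : ofComplex (nn g z / jj g z) = g • (ofComplex z : ℍ) := by
      apply UpperHalfPlane.ext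
      rw [coe_smul', ofComplex_apply_of_im_pos hz, ofComplex_apply_of_im_pos]
      exact Pool.Agent.TH997.KG.mob_mem g hz
    change ev (b i) (ofComplex (nn g z / jj g z)) = jj g z ^ m * ev (b i) (ofComplex z)
    rw [h1, ev_auto (b i) hg, ofComplex_apply_of_im_pos hz]
  · have h1 : (fun i => fun z : ℍ => ev (b i) (ofComplex z)) = fun i => (SM CG m).subtype (b i) := by
      funext i z
      rw [ofComplex_apply]
      rfl
    rw [h1]
    exact hb.map' (SM CG m).subtype (Submodule.ker_subtype _)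
  · have hcont : Continuous fun w : ℍ => (∑ i, ‖ev (b i) w‖ ^ 2) * w.im ^ m :=
      (continuous_finsetSum _ fun i _ => (ev_cont (b i)).norm.pow 2).mul (continuous_im'.pow m)
    have h1 : ∀ w : ℍ, φ w * (cm m * (1 - CC * q0 ^ (m - 4))) ≤
        φ w * ((∑ i, ‖ev (b i) w‖ ^ 2) * w.im ^ m) := by
      intro w
      refine mul_le_mul_of_nonneg_left ?_ (hφ.nonneg _)
      rw [hsum w]
      have h3 := (abs_le.1 (re_inner_Pw hM hm4 w)).1
      linarith
    have h2 := integral_mono (integrable_phiR hφ continuous_const) (integrable_phiR hφ hcont) h1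
    rw [← hN, integral_mul_const] at h2
    have h3 : (∫ w : ℍ, φ w) * (cm m * (1 - CC * q0 ^ (m - 4))) =
        ((m : ℝ) - 1) * WW φ - ((m : ℝ) - 1) * WW φ * CC * q0 ^ (m - 4) := by
      rw [WW_eq]
      unfold area cm
      field_simp
    rw [h3] at h2
    have h4 : ((m : ℝ) - 1) * WW φ * CC * q0 ^ (m - 4) ≤ WW φ * CC / q0 ^ 4 * K0 * q ^ m := by
      have h5 : q0 ^ (m - 4) = q ^ m * q ^ m / q0 ^ 4 := by
        rw [← pow_add, ← two_mul, pow_mul, hqq, eq_div_iff (pow_pos q0_pos 4).ne', ← pow_add]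
        congr 1
        omega
      rw [h5]
      have h6 : ((m : ℝ) - 1) * q ^ m ≤ K0 := by
        have := hK0 m
        have := pow_pos hq0 m
        nlinarith
      have h7 : 0 ≤ WW φ * CC / q0 ^ 4 * q ^ m := by
        have := q0_pos
        positivity
      have h8 := mul_le_mul_of_nonneg_left h6 h7
      calc ((m : ℝ) - 1) * WW φ * CC * (q ^ m * q ^ m / q0 ^ 4) =
          WW φ * CC / q0 ^ 4 * q ^ m * (((m : ℝ) - 1) * q ^ m) := by ring
        _ ≤ _ := h8
        _ = _ := by ring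
    linarith
  · intro z hz
    by_contra hne
    push Not at hne
    have h1 := hsum ⟨z, hz⟩
    have h2 : ∀ i, ev (b i) (⟨z, hz⟩ : ℍ) = 0 := by
      intro i
      have := hne i
      rwa [ofComplex_apply_of_im_pos hz] at this
    simp only [h2] at h1
    have h3 := (abs_le.1 (re_inner_Pw hM hm4 (⟨z, hz⟩ : ℍ))).1
    rw [← h1] at h3
    have h4 := hn0 (m - 4) (by omega)
    have h5 := cm_pos hm4
    simp at h3
    nlinarith

end Pool.Agent.Y789.MF
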