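import Pool.Agent.Y789.MF.Ker

/-!
# Integrals over the upper half plane in the disc model
-/

set_option autoImplicit false

open scoped MatrixGroups UpperHalfPlane ComplexConjugate NNReal ENNReal
open MeasureTheory UpperHalfPlane Set

namespace Pool.Agent.Y789.MF

open Pool.Agent.TH997.KG (VV isOpen_VV det_mul)

theorem range_coe : Set.range (UpperHalfPlane.coe) = VV := by
  ext z
  constructor
  · rintro ⟨w, rfl⟩
    exact w.im_pos
  · intro hz
    exact ⟨⟨z, hz⟩, rfl⟩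

section gen

variable {E : Type} [NormedAddCommGroup E] [NormedSpace ℝ E]

theorem mp_coe : MeasurePreserving UpperHalfPlane.coe (volume.comap UpperHalfPlane.coe)
    (volume.restrict VV) :=
  ⟨measurable_coe, by rw [measurableEmbedding_coe.map_comap, range_coe]⟩

theorem meas_dens : Measurable fun z : ℍ => ((1 / NNReal.mk z.im z.im_pos.le : ℝ≥0) ^ 2) := by
  have h1 : Measurable fun z : ℍ => NNReal.mk z.im z.im_pos.le :=
    (UpperHalfPlane.continuous_im.measurable).subtype_mk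
  exact (measurable_const.div h1).pow_const 2

theorem integral_H (G : ℍ → E) :
    ∫ w : ℍ, G w = ∫ z in VV, (1 / z.im ^ 2 : ℝ) • G (ofComplex z) := by
  rw [UpperHalfPlane.volume_def, integral_withDensity_eq_integral_smul meas_dens,
    ← mp_coe.integral_comp measurableEmbedding_coe]
  refine integral_congr_ae (Filter.Eventually.of_forall fun w => ?_)
  simp only [ofComplex_apply, NNReal.smul_def]
  congr 1
  rw [NNReal.coe_pow, NNReal.coe_div, NNReal.coe_one, div_pow, one_pow]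
  rfl

theorem integrable_H (G : ℍ → E) :
    Integrable G ↔ IntegrableOn (fun z : ℂ => (1 / z.im ^ 2 : ℝ) • G (ofComplex z)) VV := by
  rw [UpperHalfPlane.volume_def, integrable_withDensity_iff_integrable_smul meas_dens,
    IntegrableOn, ← mp_coe.integrable_comp_emb measurableEmbedding_coe]
  have h : (fun w : ℍ => ((1 / NNReal.mk w.im w.im_pos.le : ℝ≥0) ^ 2) • G w) =
      (fun z : ℂ => (1 / z.im ^ 2 : ℝ) • G (ofComplex z)) ∘ UpperHalfPlane.coe := by
    funext w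
    simp only [Function.comp_apply, ofComplex_apply, NNReal.smul_def]
    congr 1
    rw [NNReal.coe_pow, NNReal.coe_div, NNReal.coe_one, div_pow, one_pow]
    rfl
  rw [h]

/-- The disc model, centred at `z`. -/
noncomputable def psi (z : ℍ) (ζ : ℂ) : ℂ := ((z : ℂ) - conj (z : ℂ) * ζ) / (1 - ζ)

theorem one_sub_ne {ζ : ℂ} (h : ζ ∈ Metric.ball (0 : ℂ) 1) : 1 - ζ ≠ 0 := by
  intro h0
  rw [mem_ball_zero_iff] at h
  have : ζ = 1 := (sub_eq_zero.1 h0).symm
  rw [this, norm_one] at h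
  exact lt_irrefl _ h

theorem psi_im (z : ℍ) {ζ : ℂ} (h : ζ ∈ Metric.ball (0 : ℂ) 1) :
    (psi z ζ).im = z.im * (1 - ‖ζ‖ ^ 2) / Complex.normSq (1 - ζ) := by
  have h1 := one_sub_ne h
  have h2 : Complex.normSq (1 - ζ) ≠ 0 := by simpa using h1
  unfold psi
  rw [Complex.div_im, ← Complex.normSq_eq_norm_sq]
  field_simp
  simp only [Complex.sub_im, Complex.sub_re, Complex.mul_im, Complex.mul_re, Complex.conj_re,
    Complex.conj_im, Complex.one_re, Complex.one_im, Complex.normSq_apply, UpperHalfPlane.coe_re,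
    UpperHalfPlane.coe_im]
  ring

theorem norm_sq_lt {ζ : ℂ} (h : ζ ∈ Metric.ball (0 : ℂ) 1) : ‖ζ‖ ^ 2 < 1 := by
  rw [mem_ball_zero_iff] at h
  have := norm_nonneg ζ
  nlinarith

theorem psi_mem (z : ℍ) {ζ : ℂ} (h : ζ ∈ Metric.ball (0 : ℂ) 1) : psi z ζ ∈ VV := by
  change 0 < (psi z ζ).im
  rw [psi_im z h]
  have h2 : 0 < Complex.normSq (1 - ζ) := Complex.normSq_pos.2 (one_sub_ne h)
  have h3 := norm_sq_lt h
  have h4 := z.im_pos
  have h5 : 0 < 1 - ‖ζ‖ ^ 2 := by linarith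
  positivity

theorem conj_sub_ne (z : ℍ) {w : ℂ} (hw : w ∈ VV) : w - conj (z : ℂ) ≠ 0 := by
  intro h
  have := congrArg Complex.im h
  rw [Complex.sub_im, Complex.conj_im, Complex.zero_im] at this
  have h1 : 0 < (z : ℂ).im := z.im_pos
  have h2 : 0 < w.im := hw
  linarith

theorem image_psi (z : ℍ) : psi z '' Metric.ball (0 : ℂ) 1 = VV := by
  apply Set.Subset.antisymm
  · rintro _ ⟨ζ, hζ, rfl⟩
    exact psi_mem z hζ
  · intro w hw
    have h1 := conj_sub_ne z hw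
    have hzi : (z : ℂ) - conj (z : ℂ) ≠ 0 := conj_sub_ne z z.im_pos
    refine ⟨(w - z) / (w - conj (z : ℂ)), ?_, ?_⟩
    · rw [mem_ball_zero_iff, norm_div, div_lt_one (norm_pos_iff.2 h1)]
      refine (sq_lt_sq₀ (norm_nonneg _) (norm_nonneg _)).1 ?_
      rw [← Complex.normSq_eq_norm_sq, ← Complex.normSq_eq_norm_sq, Complex.normSq_apply,
        Complex.normSq_apply]
      simp only [Complex.sub_im, Complex.sub_re, Complex.conj_re, Complex.conj_im]
      have h2 : 0 < (z : ℂ).im := z.im_pos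
      have h3 : 0 < w.im := hw
      nlinarith [mul_pos h2 h3]
    · unfold psi
      have e1 : 1 - (w - (z : ℂ)) / (w - conj (z : ℂ)) =
          ((z : ℂ) - conj (z : ℂ)) / (w - conj (z : ℂ)) := by
        field_simp
        ring
      have e2 : (z : ℂ) - conj (z : ℂ) * ((w - (z : ℂ)) / (w - conj (z : ℂ))) =
          w * (((z : ℂ) - conj (z : ℂ)) / (w - conj (z : ℂ))) := by
        field_simp
        ring
      rw [e1, e2, mul_div_assoc, div_self (div_ne_zero hzi h1), mul_one]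

theorem injOn_psi (z : ℍ) : Set.InjOn (psi z) (Metric.ball (0 : ℂ) 1) := by
  intro ζ hζ η hη h
  have h1 := one_sub_ne hζ
  have h2 := one_sub_ne hη
  have hzi : (z : ℂ) - conj (z : ℂ) ≠ 0 := conj_sub_ne z z.im_pos
  unfold psi at h
  rw [div_eq_div_iff h1 h2] at h
  have h3 : ((z : ℂ) - conj (z : ℂ)) * (ζ - η) = 0 := by linear_combination h
  rcases mul_eq_zero.1 h3 with h4 | h4
  · exact absurd h4 hzi
  · exact sub_eq_zero.1 h4

theorem hasDerivAt_psi (z : ℍ) {ζ : ℂ} (h : ζ ∈ Metric.ball (0 : ℂ) 1) :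
    HasDerivAt (psi z) (((z : ℂ) - conj (z : ℂ)) / (1 - ζ) ^ 2) ζ := by
  have h1 := one_sub_ne h
  have h2 : HasDerivAt (fun ζ : ℂ => (z : ℂ) - conj (z : ℂ) * ζ) (-conj (z : ℂ)) ζ := by
    simpa using ((hasDerivAt_id ζ).const_mul (conj (z : ℂ))).const_sub (z : ℂ)
  have h3 : HasDerivAt (fun ζ : ℂ => 1 - ζ) (-1) ζ := by
    simpa using (hasDerivAt_id ζ).const_sub (1 : ℂ)
  have h4 := h2.div h3 h1
  refine h4.congr_deriv ?_
  congr 1
  ring

theorem jac_eq (z : ℍ) {ζ : ℂ} (h : ζ ∈ Metric.ball (0 : ℂ) 1) :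
    Complex.normSq (((z : ℂ) - conj (z : ℂ)) / (1 - ζ) ^ 2) * (1 / (psi z ζ).im ^ 2) =
      4 / (1 - ‖ζ‖ ^ 2) ^ 2 := by
  have h2 : Complex.normSq (1 - ζ) ≠ 0 := by simpa using one_sub_ne h
  have h3 : 1 - ‖ζ‖ ^ 2 ≠ 0 := by have := norm_sq_lt h; linarith
  have h4 : z.im ≠ 0 := z.im_ne_zero
  rw [psi_im z h, map_div₀, map_pow]
  have h5 : Complex.normSq ((z : ℂ) - conj (z : ℂ)) = 4 * z.im ^ 2 := by
    rw [Complex.normSq_apply]
    simp only [Complex.sub_im, Complex.sub_re, Complex.conj_re, Complex.conj_im,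
      UpperHalfPlane.coe_im]
    ring
  rw [h5]
  field_simp

theorem integral_disc (z : ℍ) (G : ℍ → E) :
    ∫ w : ℍ, G w =
      ∫ ζ in Metric.ball (0 : ℂ) 1, (4 / (1 - ‖ζ‖ ^ 2) ^ 2 : ℝ) • G (ofComplex (psi z ζ)) := by
  have h := integral_image_eq_integral_abs_det_fderiv_smul volume
    (Metric.isOpen_ball (x := (0 : ℂ)) (ε := 1)).measurableSet
    (f := psi z) (f' := fun ζ => (ContinuousLinearMap.toSpanSingleton ℂ
      (((z : ℂ) - conj (z : ℂ)) / (1 - ζ) ^ 2)).restrictScalars ℝ)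
    (fun ζ hζ => ((hasDerivAt_psi z hζ).hasFDerivAt.restrictScalars ℝ).hasFDerivWithinAt)
    (injOn_psi z) (fun w => (1 / w.im ^ 2 : ℝ) • G (ofComplex w))
  rw [image_psi] at h
  rw [integral_H, h]
  refine setIntegral_congr_fun Metric.isOpen_ball.measurableSet fun ζ hζ => ?_
  simp only [det_mul]
  rw [abs_of_nonneg (Complex.normSq_nonneg _), smul_smul, jac_eq z hζ]

theorem integrable_disc (z : ℍ) (G : ℍ → E) :
    Integrable G ↔ IntegrableOn (fun ζ => (4 / (1 - ‖ζ‖ ^ 2) ^ 2 : ℝ) • G (ofComplex (psi z ζ)))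
      (Metric.ball (0 : ℂ) 1) := by
  have h := integrableOn_image_iff_integrableOn_abs_det_fderiv_smul volume
    (Metric.isOpen_ball (x := (0 : ℂ)) (ε := 1)).measurableSet
    (f := psi z) (f' := fun ζ => (ContinuousLinearMap.toSpanSingleton ℂ
      (((z : ℂ) - conj (z : ℂ)) / (1 - ζ) ^ 2)).restrictScalars ℝ)
    (fun ζ hζ => ((hasDerivAt_psi z hζ).hasFDerivAt.restrictScalars ℝ).hasFDerivWithinAt)
    (injOn_psi z) (fun w => (1 / w.im ^ 2 : ℝ) • G (ofComplex w))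
  rw [image_psi] at h
  rw [integrable_H, h]
  refine integrableOn_congr_fun (fun ζ hζ => ?_) Metric.isOpen_ball.measurableSet
  simp only [det_mul]
  rw [abs_of_nonneg (Complex.normSq_nonneg _), smul_smul, jac_eq z hζ]

end gen

/-- the point `psi z ζ` of the upper half plane -/
theorem coe_ofComplex_psi (z : ℍ) {ζ : ℂ} (h : ζ ∈ Metric.ball (0 : ℂ) 1) :
    ((ofComplex (psi z ζ) : ℍ) : ℂ) = psi z ζ := by
  rw [ofComplex_apply_of_im_pos (psi_mem z h)]

theorem kk_psi (z : ℍ) {ζ : ℂ} (h : ζ ∈ Metric.ball (0 : ℂ) 1) :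
    kk z (ofComplex (psi z ζ)) = z.im / (1 - conj ζ) := by
  have h1 : 1 - conj ζ ≠ 0 := by
    have := one_sub_ne h
    intro h0
    apply this
    have := congrArg conj h0
    simpa using this
  unfold kk
  rw [coe_ofComplex_psi z h]
  unfold psi
  have hz : (z : ℂ) - conj (z : ℂ) = 2 * Complex.I * z.im := by
    apply Complex.ext <;> simp
    ring
  rw [map_div₀, map_sub, map_mul, Complex.conj_conj, map_sub, map_one]
  have : (z : ℂ) - (conj (z : ℂ) - (z : ℂ) * conj ζ) / (1 - conj ζ) =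
      ((z : ℂ) - conj (z : ℂ)) / (1 - conj ζ) := by
    field_simp
    ring
  rw [this, hz]
  field_simp

theorem SS_psi (z : ℍ) {ζ : ℂ} (h : ζ ∈ Metric.ball (0 : ℂ) 1) :
    SS z (ofComplex (psi z ζ)) ^ 2 = 1 - ‖ζ‖ ^ 2 := by
  have h1 := norm_kk z (ofComplex (psi z ζ))
  rw [kk_psi z h, norm_div, Complex.norm_real, Real.norm_eq_abs, abs_of_pos z.im_pos] at h1
  have h2 : (ofComplex (psi z ζ)).im = z.im * (1 - ‖ζ‖ ^ 2) / Complex.normSq (1 - ζ) := by
    rw [← psi_im z h, ← coe_ofComplex_psi z h]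
    simp
  have h3 : ‖1 - conj ζ‖ = ‖1 - ζ‖ := by
    rw [← Complex.norm_conj (1 - ζ), map_sub, map_one]
  have h4 : 0 < ‖1 - ζ‖ := norm_pos_iff.2 (one_sub_ne h)
  rw [h3, h2, Complex.normSq_eq_norm_sq] at h1
  have h5 := norm_sq_lt h
  have h6 : 0 < 1 - ‖ζ‖ ^ 2 := by linarith
  have hc := Real.cosh_pos (dist z (ofComplex (psi z ζ)) / 2)
  have hz := z.im_pos
  have h7 : (z.im / ‖1 - ζ‖) ^ 2 = (√(z.im * (z.im * (1 - ‖ζ‖ ^ 2) / ‖1 - ζ‖ ^ 2)) *
      Real.cosh (dist z (ofComplex (psi z ζ)) / 2)) ^ 2 := by rw [h1]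
  rw [mul_pow, Real.sq_sqrt (by positivity), div_pow] at h7
  unfold SS
  rw [inv_pow, inv_eq_iff_eq_inv]
  field_simp at h7 ⊢
  linarith

end Pool.Agent.Y789.MF
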