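import Pool.Agent.Y789.MF.Poi

/-!
# The Petersson inner product and the dimension
-/

set_option autoImplicit false

open scoped MatrixGroups UpperHalfPlane ComplexConjugate NNReal ENNReal Topology
open MeasureTheory UpperHalfPlane Set Filter

namespace Pool.Agent.Y789.MF

open Pool.Agent.W711.KC (jj nn jj_ne im_mob jj_mul nn_mul det_eq)
open Pool.Agent.TH997.KG (VV isOpen_VV mob mob_coe isCompact_pre)
open Pool.Agent.TH598.KG (Cutoff)
open Pool.Agent.H85R3

/-- The automorphic forms of weight `m`, as functions on the upper half plane. -/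
def SM (Γ : Subgroup SL(2, ℝ)) (m : ℕ) : Submodule ℂ (ℍ → ℂ) where
  carrier := {f | DifferentiableOn ℂ (fun z => f (ofComplex z)) VV ∧
    ∀ g ∈ Γ, ∀ z : ℍ, f (g • z) = jj g z ^ m * f z}
  add_mem' := by
    rintro f h ⟨hf, hf'⟩ ⟨hh, hh'⟩
    refine ⟨hf.add hh, fun g hg z => ?_⟩
    rw [Pi.add_apply, Pi.add_apply, hf' g hg, hh' g hg, mul_add]
  zero_mem' := ⟨differentiableOn_const 0, fun g _ z => by simp⟩
  smul_mem' := by
    rintro c f ⟨hf, hf'⟩
    refine ⟨hf.const_smul c, fun g hg z => ?_⟩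
    rw [Pi.smul_apply, Pi.smul_apply, hf' g hg, smul_eq_mul, smul_eq_mul]
    ring

/-- The space of the automorphic forms. -/
def SF (Γ : Subgroup SL(2, ℝ)) (m : ℕ) : Type := ↥(SM Γ m)

noncomputable instance (Γ : Subgroup SL(2, ℝ)) (m : ℕ) : AddCommGroup (SF Γ m) :=
  inferInstanceAs (AddCommGroup ↥(SM Γ m))

noncomputable instance (Γ : Subgroup SL(2, ℝ)) (m : ℕ) : Module ℂ (SF Γ m) :=
  inferInstanceAs (Module ℂ ↥(SM Γ m))

variable {Γ : Subgroup SL(2, ℝ)} {m : ℕ}

/-- the value -/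
def ev (f : SF Γ m) (z : ℍ) : ℂ := f.1 z

theorem ev_add (f h : SF Γ m) (z : ℍ) : ev (f + h) z = ev f z + ev h z := rfl

theorem ev_smul (c : ℂ) (f : SF Γ m) (z : ℍ) : ev (c • f) z = c * ev f z := rfl

theorem ev_auto (f : SF Γ m) {g : SL(2, ℝ)} (hg : g ∈ Γ) (z : ℍ) :
    ev f (g • z) = jj g z ^ m * ev f z := f.2.2 g hg z

theorem ev_hol (f : SF Γ m) : DifferentiableOn ℂ (fun z => ev f (ofComplex z)) VV := f.2.1

theorem ev_ext {f h : SF Γ m} (H : ∀ z, ev f z = ev h z) : f = h := Subtype.ext (funext H)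

theorem ev_cont (f : SF Γ m) : Continuous (ev f) := by
  have h1 : ev f = (fun z => ev f (ofComplex z)) ∘ (fun w : ℍ => (w : ℂ)) := by
    funext w
    simp
  rw [h1]
  refine continuous_iff_continuousAt.2 fun w => ?_
  exact ((ev_hol f).continuousOn.continuousAt (isOpen_VV.mem_nhds w.im_pos)).comp
    UpperHalfPlane.continuous_coe.continuousAt

section fixphi

variable {φ : ℂ → ℝ}

theorem exists_phi_ne (hφ : Cutoff Γ φ) (w : ℍ) : ∃ g ∈ Γ, φ ((g • w : ℍ) : ℂ) ≠ 0 := by
  by_contra h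
  push Not at h
  have h1 := hφ.sum w
  have h2 : ∀ g : Γ, φ (((g : SL(2, ℝ)) • w : ℍ) : ℂ) = 0 := fun g => h g.1 g.2
  simp only [h2, tsum_zero] at h1
  exact zero_ne_one h1

theorem norm_inv' (f : SF Γ m) {g : SL(2, ℝ)} (hg : g ∈ Γ) (z : ℍ) :
    ‖ev f (g • z)‖ * √(g • z).im ^ m = ‖ev f z‖ * √z.im ^ m := by
  have hj : 0 < ‖jj g z‖ := norm_pos_iff.2 (jj_ne' g z)
  rw [ev_auto f hg, im_smul', Complex.normSq_eq_norm_sq, Real.sqrt_div' _ (by positivity),
    Real.sqrt_sq hj.le, norm_mul, norm_pow, div_pow]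
  field_simp

theorem ev_bdd (hφ : Cutoff Γ φ) (f : SF Γ m) : ∃ M : ℝ, ∀ w : ℍ, ‖ev f w‖ * √w.im ^ m ≤ M := by
  have hK := isCompact_pre hφ.compact.isCompact hφ.supp
  have hc : Continuous fun w : ℍ => ‖ev f w‖ * √w.im ^ m :=
    (ev_cont f).norm.mul ((Real.continuous_sqrt.comp continuous_im').pow m)
  obtain ⟨M, hM⟩ := hK.bddAbove_image hc.continuousOn
  refine ⟨M, fun w => ?_⟩
  obtain ⟨g, hg, hgw⟩ := exists_phi_ne hφ w
  rw [← norm_inv' f hg w]
  exact hM ⟨g • w, subset_tsupport _ hgw, rfl⟩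

theorem hcs (hφ : Cutoff Γ φ) {h : ℍ → ℂ} : HasCompactSupport fun w : ℍ => (φ w : ℂ) * h w := by
  refine HasCompactSupport.intro (isCompact_pre hφ.compact.isCompact hφ.supp) fun w hw => ?_
  have : φ (w : ℂ) = 0 := image_eq_zero_of_notMem_tsupport hw
  rw [this]
  simp

theorem cont_phiC (hφ : Cutoff Γ φ) : Continuous fun w : ℍ => (φ w : ℂ) :=
  Complex.continuous_ofReal.comp (hφ.smooth.continuous.comp UpperHalfPlane.continuous_coe)

theorem integrable_phi (hφ : Cutoff Γ φ) {h : ℍ → ℂ} (hh : Continuous h) :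
    Integrable fun w : ℍ => (φ w : ℂ) * h w :=
  ((cont_phiC hφ).mul hh).integrable_of_hasCompactSupport (hcs hφ)

/-- The inner product. -/
noncomputable def ip (φ : ℂ → ℝ) (f h : SF Γ m) : ℂ :=
  ∫ w : ℍ, (φ w : ℂ) * (conj (ev f w) * ev h w * (w.im : ℂ) ^ m)

theorem cont_ip (f h : SF Γ m) :
    Continuous fun w : ℍ => conj (ev f w) * ev h w * (w.im : ℂ) ^ m :=
  ((Complex.continuous_conj.comp (ev_cont f)).mul (ev_cont h)).mul
    ((Complex.continuous_ofReal.comp continuous_im').pow m)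

theorem ip_self (f : SF Γ m) :
    ip φ f f = ((∫ w : ℍ, φ w * (‖ev f w‖ ^ 2 * w.im ^ m) : ℝ) : ℂ) := by
  unfold ip
  rw [← integral_complex_ofReal]
  refine integral_congr_ae (Eventually.of_forall fun w => ?_)
  simp only
  push_cast
  rw [← Complex.conj_mul']

theorem openPos : Measure.IsOpenPosMeasure (volume : Measure ℍ) := by
  refine ⟨fun U hU hne h0 => ?_⟩
  obtain ⟨w, hw⟩ := hne
  obtain ⟨ε, hε, hb⟩ := Metric.isOpen_iff.1 hU w hw
  have h1 := measure_mono_null hb h0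
  rw [HS.volume_ball] at h1
  exact HS.volume_ball_ne_zero hε h1

theorem ip_definite (hφ : Cutoff Γ φ) (f : SF Γ m) (h : ip φ f f = 0) : f = 0 := by
  have := openPos
  rw [ip_self, Complex.ofReal_eq_zero] at h
  have hc : Continuous fun w : ℍ => φ w * (‖ev f w‖ ^ 2 * w.im ^ m) :=
    (hφ.smooth.continuous.comp UpperHalfPlane.continuous_coe).mul
      (((ev_cont f).norm.pow 2).mul (continuous_im'.pow m))
  have hcs' : HasCompactSupport fun w : ℍ => φ w * (‖ev f w‖ ^ 2 * w.im ^ m) := by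
    refine HasCompactSupport.intro (isCompact_pre hφ.compact.isCompact hφ.supp) fun w hw => ?_
    have : φ (w : ℂ) = 0 := image_eq_zero_of_notMem_tsupport hw
    rw [this, zero_mul]
  have hn : 0 ≤ fun w : ℍ => φ w * (‖ev f w‖ ^ 2 * w.im ^ m) := fun w =>
    mul_nonneg (hφ.nonneg _) (by have := w.im_pos; positivity)
  have h0 : (fun w : ℍ => φ w * (‖ev f w‖ ^ 2 * w.im ^ m)) = 0 := by
    by_contra hne
    have := hc.integral_pos_of_hasCompactSupport_nonneg_nonzero (μ := volume) hcs' hn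
      (x := Classical.choose (Function.ne_iff.1 hne)) (Classical.choose_spec (Function.ne_iff.1 hne))
    exact this.ne' h
  refine ev_ext fun w => ?_
  obtain ⟨g, hg, hgw⟩ := exists_phi_ne hφ w
  have h1 := congrFun h0 (g • w)
  simp only [Pi.zero_apply, mul_eq_zero] at h1
  have h2 := norm_inv' f hg w
  have h3 : ev f (g • w) = 0 := by
    rcases h1 with h1 | h1 | h1
    · exact absurd h1 hgw
    · simpa using h1
    · exact absurd h1 (pow_ne_zero _ (g • w).im_ne_zero)
  rw [h3, norm_zero, zero_mul] at h2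
  have h4 : √w.im ^ m ≠ 0 := pow_ne_zero _ (Real.sqrt_pos.2 w.im_pos).ne'
  have h5 := (mul_eq_zero.1 h2.symm).resolve_right h4
  exact norm_eq_zero.1 h5

/-- The Petersson inner product. -/
@[instance_reducible] noncomputable def core (hφ : Cutoff Γ φ) : InnerProductSpace.Core ℂ (SF Γ m) where
  inner f h := ip φ f h
  conj_inner_symm f h := by
    unfold ip
    rw [← integral_conj]
    refine integral_congr_ae (Eventually.of_forall fun w => ?_)
    simp only [map_mul, Complex.conj_ofReal, Complex.conj_conj, map_pow]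
    ring
  re_inner_nonneg f := by
    rw [ip_self]
    simp only [RCLike.re_to_complex, Complex.ofReal_re]
    refine integral_nonneg fun w => ?_
    exact mul_nonneg (hφ.nonneg _) (by have := w.im_pos; positivity)
  add_left f h k := by
    unfold ip
    rw [← integral_add (integrable_phi hφ (cont_ip f k)) (integrable_phi hφ (cont_ip h k))]
    refine integral_congr_ae (Eventually.of_forall fun w => ?_)
    simp only [ev_add, map_add]
    ring
  smul_left f h c := by
    unfold ip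
    rw [← integral_const_mul]
    refine integral_congr_ae (Eventually.of_forall fun w => ?_)
    simp only [ev_smul, map_mul]
    ring
  definite f h := ip_definite hφ f h

/-- The Poincaré series as an automorphic form. -/
noncomputable def Pw (hM : HS.MovesFar Γ 1) (hm : 4 ≤ m) (w : ℍ) : SF Γ m :=
  ⟨fun z => (((m : ℝ) - 1) / (4 * Real.pi) : ℝ) * PP Γ m z w,
    (PP_hol hM hm w).const_mul _, fun g hg z => by simp only [PP_smul m z w hg]; ring⟩

theorem ip_Pw [Countable Γ] (hφ : Cutoff Γ φ) (hM : HS.MovesFar Γ 1) (hm : 4 ≤ m) (w : ℍ)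
    (f : SF Γ m) : ip φ (Pw hM hm w) f = ev f w := by
  obtain ⟨k, rfl⟩ : ∃ k, m = k + 2 := ⟨m - 2, by omega⟩
  obtain ⟨M, hMb⟩ := ev_bdd hφ f
  have h1 := PP_repro (Γ := Γ) hφ (F := fun z => ev f (ofComplex z)) (ev_hol f) (k := k) (by omega)
    (M := M) (fun w => by simpa using hMb w)
    (fun g hg w => by simpa using ev_auto f hg w) w
  simp only [ofComplex_apply] at h1
  unfold ip
  have h2 : ∀ z : ℍ, (φ z : ℂ) * (conj (ev (Pw hM hm w) z) * ev f z * (z.im : ℂ) ^ (k + 2)) =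
      ((((k + 2 : ℕ) : ℝ) - 1) / (4 * Real.pi) : ℝ) *
        ((φ z : ℂ) * (PP Γ (k + 2) w z * ev f z * (z.im : ℂ) ^ (k + 2))) := by
    intro z
    have h3 : ev (Pw hM hm w) z = ((((k + 2 : ℕ) : ℝ) - 1) / (4 * Real.pi) : ℝ) *
        PP Γ (k + 2) z w := rfl
    rw [h3, map_mul, Complex.conj_ofReal, conj_PP]
    ring
  simp only [h2]
  rw [integral_const_mul, h1, ← mul_assoc, ← Complex.ofReal_mul]
  have h4 : (((k + 2 : ℕ) : ℝ) - 1) / (4 * Real.pi) * (4 * Real.pi / (k + 1)) = 1 := by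
    have := Real.pi_ne_zero
    have : (k : ℝ) + 1 ≠ 0 := by positivity
    push_cast
    field_simp
    ring
  rw [h4, Complex.ofReal_one, one_mul]

end fixphi

end Pool.Agent.Y789.MF
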