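import Pool.Agent.TH997.J115
import Pool.Agent.H85R3.HSPack
import Pool.Agent.Y486.Base

/-!
# The Bergman kernel of the upper half plane: algebra
-/

set_option autoImplicit false

open scoped MatrixGroups UpperHalfPlane ComplexConjugate
open MeasureTheory UpperHalfPlane

namespace Pool.Agent.Y789.MF

open Pool.Agent.W711.KC (jj nn jj_ne im_mob jj_mul nn_mul det_eq)

/-- `(z - conj w) / (2 i)` -/
noncomputable def kk (z w : ℍ) : ℂ := ((z : ℂ) - conj (w : ℂ)) / (2 * Complex.I)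

theorem coe_smul' (g : SL(2, ℝ)) (z : ℍ) : ((g • z : ℍ) : ℂ) = nn g z / jj g z := by
  rw [UpperHalfPlane.coe_specialLinearGroup_apply]
  rfl

theorem jj_ne' (g : SL(2, ℝ)) (z : ℍ) : jj g z ≠ 0 := jj_ne g z.im_pos

theorem im_smul' (g : SL(2, ℝ)) (z : ℍ) : (g • z).im = z.im / Complex.normSq (jj g z) := by
  rw [← UpperHalfPlane.coe_im, coe_smul', im_mob g z.im_pos]
  rfl

theorem jj_mul' (g h : SL(2, ℝ)) (z : ℍ) : jj (g * h) z = jj g (h • z : ℍ) * jj h z := by
  rw [jj_mul g h z.im_pos, coe_smul']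

theorem jj_one (z : ℂ) : jj 1 z = 1 := by simp [jj]

theorem conj_jj (g : SL(2, ℝ)) (t : ℂ) : conj (jj g t) = jj g (conj t) := by
  simp [jj]

theorem conj_nn (g : SL(2, ℝ)) (t : ℂ) : conj (nn g t) = nn g (conj t) := by
  simp [nn]

theorem kk_smul (g : SL(2, ℝ)) (z w : ℍ) :
    kk (g • z) (g • w) * (jj g z * conj (jj g w)) = kk z w := by
  have h1 := jj_ne' g z
  have h2 : conj (jj g w) ≠ 0 := by simpa using jj_ne' g w
  have hd : ((g 0 0 : ℝ) : ℂ) * ((g 1 1 : ℝ) : ℂ) - ((g 0 1 : ℝ) : ℂ) * ((g 1 0 : ℝ) : ℂ) = 1 := by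
    exact_mod_cast congrArg (fun x : ℝ => (x : ℂ)) (det_eq g)
  unfold kk
  rw [coe_smul', coe_smul', map_div₀]
  have h3 : nn g z / jj g z - conj (nn g w) / conj (jj g w) =
      (nn g z * conj (jj g w) - conj (nn g w) * jj g z) / (jj g z * conj (jj g w)) := by
    field_simp
  rw [h3]
  have h4 : nn g z * conj (jj g w) - conj (nn g w) * jj g z = (z : ℂ) - conj (w : ℂ) := by
    rw [conj_jj, conj_nn]
    simp only [nn, jj]
    linear_combination ((z : ℂ) - conj (w : ℂ)) * hd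
  rw [h4]
  field_simp

theorem norm_kk (z w : ℍ) : ‖kk z w‖ = √(z.im * w.im) * Real.cosh (dist z w / 2) := by
  rw [UpperHalfPlane.cosh_half_dist]
  have h1 : 0 < √(z.im * w.im) := Real.sqrt_pos.2 (mul_pos z.im_pos w.im_pos)
  unfold kk
  rw [norm_div, norm_mul, Complex.norm_I, mul_one, Complex.norm_ofNat, Complex.dist_eq]
  field_simp

theorem kk_ne (z w : ℍ) : kk z w ≠ 0 := by
  rw [← norm_pos_iff, norm_kk]
  exact mul_pos (Real.sqrt_pos.2 (mul_pos z.im_pos w.im_pos)) (Real.cosh_pos _)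

theorem conj_kk (z w : ℍ) : conj (kk z w) = kk w z := by
  unfold kk
  rw [map_div₀, map_sub, Complex.conj_conj, map_mul, Complex.conj_I]
  have h1 : (starRingEnd ℂ) (2 : ℂ) = 2 := map_ofNat _ 2
  rw [h1]
  field_simp
  ring

/-- `1 / cosh (d / 2)` -/
noncomputable def SS (z w : ℍ) : ℝ := (Real.cosh (dist z w / 2))⁻¹

theorem SS_pos (z w : ℍ) : 0 < SS z w := inv_pos.2 (Real.cosh_pos _)

theorem SS_le_one (z w : ℍ) : SS z w ≤ 1 := inv_le_one_of_one_le₀ (Real.one_le_cosh _)

theorem SS_comm (z w : ℍ) : SS z w = SS w z := by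
  unfold SS
  rw [dist_comm]

theorem cosh_harnack {x y a : ℝ} (h : x ≤ y + a) (hx : 0 ≤ x) (ha : 0 ≤ a) :
    Real.cosh x ≤ Real.exp a * Real.cosh y := by
  have hy : x - a ≤ |y| := by
    have := le_abs_self y
    linarith
  have h1 : Real.cosh x ≤ Real.exp a * Real.cosh (x - a) := by
    rw [Real.cosh_eq, Real.cosh_eq]
    have e1 : Real.exp a * Real.exp (x - a) = Real.exp x := by
      rw [← Real.exp_add]
      congr 1
      ring
    have e2 : Real.exp a * Real.exp (-(x - a)) = Real.exp (-x + 2 * a) := by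
      rw [← Real.exp_add]
      congr 1
      ring
    have e3 : Real.exp (-x) ≤ Real.exp (-x + 2 * a) := Real.exp_le_exp.2 (by linarith)
    nlinarith
  by_cases hc : 0 ≤ x - a
  · have h2 : Real.cosh (x - a) ≤ Real.cosh y := by
      rw [Real.cosh_le_cosh, abs_of_nonneg hc]
      exact hy
    exact h1.trans (mul_le_mul_of_nonneg_left h2 (Real.exp_pos a).le)
  · have h3 : Real.cosh x ≤ Real.exp x := by
      rw [Real.cosh_eq]
      have : Real.exp (-x) ≤ Real.exp x := Real.exp_le_exp.2 (by linarith)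
      linarith
    have h4 : Real.exp x ≤ Real.exp a := Real.exp_le_exp.2 (by linarith)
    have h5 := Real.one_le_cosh y
    nlinarith [Real.exp_pos a]

theorem SS_harnack (z w w' : ℍ) : SS z w' ≤ Real.exp (dist w w' / 2) * SS z w := by
  unfold SS
  have h := cosh_harnack (x := dist z w / 2) (y := dist z w' / 2) (a := dist w w' / 2)
    (by have := dist_triangle z w' w; rw [dist_comm w' w] at this; linarith) (by positivity)
    (by positivity)
  have h1 := Real.cosh_pos (dist z w / 2)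
  have h2 := Real.cosh_pos (dist z w' / 2)
  rw [← div_eq_mul_inv, le_div_iff₀ h1, inv_mul_le_iff₀ h2, mul_comm]
  exact h

theorem SS_smul (g : SL(2, ℝ)) (z w : ℍ) : SS (g • z) (g • w) = SS z w := by
  unfold SS
  rw [dist_smul]

/-- The norm of the terms of the Poincaré series. -/
theorem norm_term (m : ℕ) (z w : ℍ) (h : SL(2, ℝ)) :
    ‖(kk z (h • w) ^ m * conj (jj h w) ^ m)⁻¹‖ = (√(z.im * w.im) ^ m)⁻¹ * SS z (h • w) ^ m := by
  have hj : 0 < ‖jj h w‖ := norm_pos_iff.2 (jj_ne' h w)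
  have h1 : √(z.im * (h • w).im) * ‖jj h w‖ = √(z.im * w.im) := by
    rw [im_smul', Complex.normSq_eq_norm_sq, ← mul_div_assoc, Real.sqrt_div' _ (by positivity),
      Real.sqrt_sq hj.le]
    field_simp
  rw [norm_inv, norm_mul, norm_pow, norm_pow, Complex.norm_conj, norm_kk, ← mul_pow, mul_right_comm,
    h1, mul_pow, mul_inv]
  unfold SS
  rw [inv_pow]

end Pool.Agent.Y789.MF
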