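import Pool.Agent.Y789.MF.Disc

/-!
# The mean value property and the reproducing formula
-/

set_option autoImplicit false

open scoped MatrixGroups UpperHalfPlane ComplexConjugate NNReal ENNReal
open MeasureTheory UpperHalfPlane Set

namespace Pool.Agent.Y789.MF

open Pool.Agent.TH997.KG (VV isOpen_VV det_mul)

theorem circ_mean {G : ℂ → ℂ} (hG : DifferentiableOn ℂ G (Metric.ball (0 : ℂ) 1)) {r : ℝ}
    (h0 : 0 < r) (h1 : r < 1) :
    ∫ θ in Ioo (-Real.pi) Real.pi, G (r * (Real.cos θ + Real.sin θ * Complex.I)) =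
      2 * Real.pi * G 0 := by
  have hd : DiffContOnCl ℂ G (Metric.ball 0 |r|) := by
    refine DifferentiableOn.diffContOnCl ?_
    refine hG.mono ?_
    rw [closure_ball _ (abs_pos.2 h0.ne').ne', abs_of_pos h0]
    exact Metric.closedBall_subset_ball h1
  have h2 := hd.circleAverage
  rw [Real.circleAverage_def] at h2
  have hp : Function.Periodic (fun θ => G (circleMap 0 r θ)) (2 * Real.pi) := by
    intro θ
    change G (circleMap 0 r (θ + 2 * Real.pi)) = _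
    rw [periodic_circleMap 0 r θ]
  have h3 := hp.intervalIntegral_add_eq 0 (-Real.pi)
  rw [zero_add, show -Real.pi + 2 * Real.pi = Real.pi by ring] at h3
  rw [h3] at h2
  rw [← integral_Ioc_eq_integral_Ioo, ← intervalIntegral.integral_of_le (by linarith [Real.pi_pos])]
  have h4 : ∀ θ : ℝ, (r : ℂ) * (Real.cos θ + Real.sin θ * Complex.I) = circleMap 0 r θ := by
    intro θ
    rw [circleMap, zero_add, Complex.exp_mul_I]
    push_cast
    rfl
  simp only [h4]
  have hpi : (2 * Real.pi : ℝ) ≠ 0 := by positivity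
  rw [inv_smul_eq_iff₀ hpi] at h2
  rw [h2, Complex.real_smul]
  push_cast
  ring

theorem rad_int (k : ℕ) :
    ∫ r in Ioo (0 : ℝ) 1, r * (1 - r ^ 2) ^ k = 1 / (2 * ((k : ℝ) + 1)) := by
  rw [← integral_Ioc_eq_integral_Ioo, ← intervalIntegral.integral_of_le zero_le_one]
  have h1 : ∀ r ∈ uIcc (0 : ℝ) 1, HasDerivAt (fun r : ℝ => -((1 - r ^ 2) ^ (k + 1) / (2 * (k + 1))))
      (r * (1 - r ^ 2) ^ k) r := by
    intro r _
    have h2 : HasDerivAt (fun r : ℝ => 1 - r ^ 2) (-(2 * r)) r := by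
      simpa using (hasDerivAt_pow 2 r).const_sub 1
    have h3 := ((h2.pow (k + 1)).div_const (2 * ((k : ℝ) + 1))).neg
    refine h3.congr_deriv ?_
    have : (k : ℝ) + 1 ≠ 0 := by positivity
    simp only [Nat.add_sub_cancel]
    push_cast
    field_simp
  rw [intervalIntegral.integral_eq_sub_of_hasDerivAt h1
    ((by fun_prop : Continuous fun r : ℝ => r * (1 - r ^ 2) ^ k).intervalIntegrable _ _)]
  norm_num

theorem disc_mean {G : ℂ → ℂ} (hG : DifferentiableOn ℂ G (Metric.ball (0 : ℂ) 1)) (k : ℕ) {M : ℝ}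
    (hM : ∀ ζ ∈ Metric.ball (0 : ℂ) 1, ‖G ζ‖ * (1 - ‖ζ‖ ^ 2) ^ k ≤ M) :
    ∫ ζ in Metric.ball (0 : ℂ) 1, ((1 - ‖ζ‖ ^ 2) ^ k : ℝ) • G ζ =
      (Real.pi / (k + 1) : ℝ) • G 0 := by
  set F : ℂ → ℂ := fun ζ => ((1 - ‖ζ‖ ^ 2) ^ k : ℝ) • G ζ with hF
  set c : ℝ → ℂ := fun θ => (Real.cos θ + Real.sin θ * Complex.I) with hc
  have hcn : ∀ θ, ‖c θ‖ = 1 := by
    intro θ
    rw [hc]
    simp only
    rw [Complex.ofReal_cos, Complex.ofReal_sin, ← Complex.exp_mul_I, Complex.norm_exp_ofReal_mul_I]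
  set T : Set (ℝ × ℝ) := Ioo (0 : ℝ) 1 ×ˢ Ioo (-Real.pi) Real.pi with hT
  set H : ℝ × ℝ → ℂ := fun p => p.1 • F (p.1 * c p.2) with hH
  have hball : ∀ p ∈ T, (p.1 * c p.2 : ℂ) ∈ Metric.ball (0 : ℂ) 1 := by
    rintro ⟨r, θ⟩ ⟨⟨hr0, hr1⟩, _⟩
    rw [mem_ball_zero_iff, norm_mul, hcn, mul_one, Complex.norm_real, Real.norm_eq_abs,
      abs_of_pos hr0]
    exact hr1
  have h1 : ∫ ζ in Metric.ball (0 : ℂ) 1, F ζ = ∫ p in T, H p := by
    rw [← integral_indicator Metric.isOpen_ball.measurableSet, ← Complex.integral_comp_polarCoord_symm,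
      ← integral_indicator polarCoord.open_target.measurableSet,
      ← integral_indicator (measurableSet_Ioo.prod measurableSet_Ioo)]
    congr 1
    funext p
    by_cases hp : p ∈ T
    · have hp' : p ∈ polarCoord.target := ⟨hp.1.1, hp.2⟩
      rw [indicator_of_mem hp, indicator_of_mem hp', Complex.polarCoord_symm_apply,
        indicator_of_mem (hball p hp)]
    · rw [indicator_of_notMem hp]
      by_cases hp' : p ∈ polarCoord.target
      · rw [indicator_of_mem hp', indicator_of_notMem, smul_zero]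
        rw [mem_ball_zero_iff, Complex.norm_polarCoord_symm, abs_of_pos hp'.1]
        intro h
        exact hp ⟨⟨hp'.1, h⟩, hp'.2⟩
      · rw [indicator_of_notMem hp']
  have hcc : Continuous c := by
    rw [hc]
    fun_prop
  have hint : IntegrableOn H T := by
    have hcont : ContinuousOn H T := by
      have e1 : ContinuousOn (fun p : ℝ × ℝ => (p.1 * c p.2 : ℂ)) T := by fun_prop
      have e2 : ContinuousOn F (Metric.ball (0 : ℂ) 1) := by
        have e3 : Continuous fun ζ : ℂ => ((1 - ‖ζ‖ ^ 2) ^ k : ℝ) := by fun_prop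
        exact e3.continuousOn.smul hG.continuousOn
      exact continuousOn_fst.smul (e2.comp e1 hball)
    have hTm : MeasurableSet T := measurableSet_Ioo.prod measurableSet_Ioo
    have hfin : IsFiniteMeasure (volume.restrict T) := by
      refine ⟨?_⟩
      rw [Measure.restrict_apply_univ, hT, Measure.volume_eq_prod, Measure.prod_prod,
        Real.volume_Ioo, Real.volume_Ioo]
      exact ENNReal.mul_lt_top ENNReal.ofReal_lt_top ENNReal.ofReal_lt_top
    refine Integrable.of_bound (hcont.aestronglyMeasurable hTm) M ?_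
    filter_upwards [ae_restrict_mem hTm] with p hp
    have e4 := hM _ (hball p hp)
    have e5 := norm_sq_lt (hball p hp)
    have e6 : 0 ≤ (1 - ‖(p.1 * c p.2 : ℂ)‖ ^ 2) ^ k := pow_nonneg (by linarith) k
    simp only [hH, hF]
    rw [norm_smul, norm_smul, Real.norm_eq_abs, Real.norm_eq_abs, abs_of_nonneg e6,
      abs_of_pos hp.1.1]
    have e7 : p.1 ≤ 1 := hp.1.2.le
    have e8 := mul_nonneg (norm_nonneg (G (p.1 * c p.2))) e6
    nlinarith [hp.1.1]
  rw [h1, hT, Measure.volume_eq_prod, setIntegral_prod _ hint]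
  have h2 : ∀ r ∈ Ioo (0 : ℝ) 1, ∫ θ in Ioo (-Real.pi) Real.pi, H (r, θ) =
      (r * (1 - r ^ 2) ^ k : ℝ) • (2 * Real.pi * G 0 : ℂ) := by
    intro r hr
    rw [← circ_mean hG hr.1 hr.2, ← integral_smul]
    refine integral_congr_ae (Filter.Eventually.of_forall fun θ => ?_)
    simp only [hH, hF]
    rw [norm_mul, hcn, mul_one, Complex.norm_real, Real.norm_eq_abs, sq_abs, smul_smul]
  rw [setIntegral_congr_fun measurableSet_Ioo h2, integral_smul_const, rad_int]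
  rw [Complex.real_smul, Complex.real_smul]
  push_cast
  have : (k : ℂ) + 1 ≠ 0 := by exact_mod_cast Nat.succ_ne_zero k
  field_simp

theorem im_psiH (z : ℍ) {ζ : ℂ} (h : ζ ∈ Metric.ball (0 : ℂ) 1) :
    (ofComplex (psi z ζ)).im = z.im * (1 - ‖ζ‖ ^ 2) / Complex.normSq (1 - ζ) := by
  rw [← psi_im z h, ← UpperHalfPlane.coe_im, coe_ofComplex_psi z h]

theorem SS4_disc (z : ℍ) {ζ : ℂ} (h : ζ ∈ Metric.ball (0 : ℂ) 1) :
    (4 / (1 - ‖ζ‖ ^ 2) ^ 2 : ℝ) • SS z (ofComplex (psi z ζ)) ^ 4 = 4 := by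
  have h1 := SS_psi z h
  have h2 := norm_sq_lt h
  have h3 : 1 - ‖ζ‖ ^ 2 ≠ 0 := by linarith
  have h4 : SS z (ofComplex (psi z ζ)) ^ 4 = (1 - ‖ζ‖ ^ 2) ^ 2 := by
    rw [← h1]
    ring
  rw [h4, smul_eq_mul]
  field_simp

theorem integrable_SS4 (z : ℍ) : Integrable fun w : ℍ => SS z w ^ 4 := by
  rw [integrable_disc z]
  refine (integrableOn_congr_fun (fun ζ hζ => SS4_disc z hζ) Metric.isOpen_ball.measurableSet).2 ?_
  exact integrableOn_const (measure_ball_lt_top).ne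

theorem integral_SS4 (z : ℍ) : ∫ w : ℍ, SS z w ^ 4 = 4 * Real.pi := by
  rw [integral_disc z, setIntegral_congr_fun Metric.isOpen_ball.measurableSet
    (fun ζ hζ => SS4_disc z hζ), setIntegral_const, Measure.real, Complex.volume_ball]
  simp
  ring

theorem continuous_coeH : Continuous fun w : ℍ => (w : ℂ) := UpperHalfPlane.continuous_coe

theorem continuous_kk_right (z : ℍ) : Continuous fun w : ℍ => kk z w := by
  unfold kk
  have h1 : Continuous fun w : ℍ => conj (w : ℂ) := Complex.continuous_conj.comp continuous_coeH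
  exact (continuous_const.sub h1).div_const _

theorem continuous_im' : Continuous fun w : ℍ => (w.im : ℝ) := UpperHalfPlane.continuous_im

theorem integrable_kernel {F : ℍ → ℂ} (hF : Continuous F) {m : ℕ} (hm : 4 ≤ m) {M : ℝ}
    (hM : ∀ w : ℍ, ‖F w‖ * √w.im ^ m ≤ M) (z : ℍ) :
    Integrable fun w : ℍ => (kk z w ^ m)⁻¹ * F w * (w.im : ℂ) ^ m := by
  have hc : Continuous fun w : ℍ => (kk z w ^ m)⁻¹ * F w * (w.im : ℂ) ^ m := by
    refine ((((continuous_kk_right z).pow m).inv₀ fun w => pow_ne_zero _ (kk_ne z w)).mul hF).mul ?_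
    exact (Complex.continuous_ofReal.comp continuous_im').pow m
  refine ((integrable_SS4 z).const_mul (M / √z.im ^ m)).mono' hc.aestronglyMeasurable ?_
  refine Filter.Eventually.of_forall fun w => ?_
  have hz := Real.sqrt_pos.2 z.im_pos
  have hw := Real.sqrt_pos.2 w.im_pos
  have h1 : ‖(kk z w ^ m)⁻¹ * F w * (w.im : ℂ) ^ m‖ =
      (‖F w‖ * √w.im ^ m) / √z.im ^ m * SS z w ^ m := by
    rw [norm_mul, norm_mul, norm_inv, norm_pow, norm_pow, norm_kk, Complex.norm_real,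
      Real.norm_eq_abs, abs_of_pos w.im_pos, Real.sqrt_mul z.im_pos.le]
    unfold SS
    have h2 : w.im ^ m = √w.im ^ m * √w.im ^ m := by
      rw [← mul_pow, Real.mul_self_sqrt w.im_pos.le]
    have h3 := Real.cosh_pos (dist z w / 2)
    rw [h2, mul_pow, mul_pow, inv_pow]
    field_simp
  rw [h1]
  have h4 : SS z w ^ m ≤ SS z w ^ 4 :=
    pow_le_pow_of_le_one (SS_pos z w).le (SS_le_one z w) hm
  have h5 : 0 ≤ ‖F w‖ * √w.im ^ m := by positivity
  refine mul_le_mul ?_ h4 (pow_pos (SS_pos z w) m).le (by have := h5.trans (hM w); positivity)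
  exact div_le_div_of_nonneg_right (hM w) (by positivity)

/-- The reproducing formula. -/
theorem repro {F : ℂ → ℂ} (hF : DifferentiableOn ℂ F VV) {k : ℕ} (hk : 2 ≤ k) {M : ℝ}
    (hM : ∀ w : ℍ, ‖F w‖ * √w.im ^ (k + 2) ≤ M) (z : ℍ) :
    ∫ w : ℍ, (kk z w ^ (k + 2))⁻¹ * F w * (w.im : ℂ) ^ (k + 2) =
      (4 * Real.pi / (k + 1) : ℝ) * F z := by
  set G : ℂ → ℂ := fun ζ => ((1 - ζ) ^ (k + 2))⁻¹ * F (psi z ζ) with hG
  have hGd : DifferentiableOn ℂ G (Metric.ball (0 : ℂ) 1) := by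
    refine DifferentiableOn.mul ?_ ?_
    · refine DifferentiableOn.inv (by fun_prop) fun ζ hζ => pow_ne_zero _ (one_sub_ne hζ)
    · refine hF.comp ?_ fun ζ hζ => psi_mem z hζ
      exact fun ζ hζ => (hasDerivAt_psi z hζ).differentiableAt.differentiableWithinAt
  have hb : ∀ ζ ∈ Metric.ball (0 : ℂ) 1, ‖G ζ‖ * (1 - ‖ζ‖ ^ 2) ^ k ≤ M / √z.im ^ (k + 2) := by
    intro ζ hζ
    have h1 := norm_sq_lt hζ
    have h2 : 0 < 1 - ‖ζ‖ ^ 2 := by linarith
    have h3 := hM (ofComplex (psi z ζ))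
    rw [← UpperHalfPlane.coe_im, coe_ofComplex_psi z hζ, psi_im z hζ,
      Complex.normSq_eq_norm_sq] at h3
    have h4 : 0 < ‖1 - ζ‖ := norm_pos_iff.2 (one_sub_ne hζ)
    have hz := Real.sqrt_pos.2 z.im_pos
    rw [Real.sqrt_div' _ (by positivity), Real.sqrt_sq h4.le, Real.sqrt_mul z.im_pos.le, div_pow,
      mul_pow] at h3
    have h5 : (1 - ‖ζ‖ ^ 2) ^ k ≤ √(1 - ‖ζ‖ ^ 2) ^ (k + 2) := by
      have h6 : (1 - ‖ζ‖ ^ 2) ^ k = √(1 - ‖ζ‖ ^ 2) ^ (2 * k) := by
        rw [pow_mul, Real.sq_sqrt h2.le]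
      rw [h6]
      refine pow_le_pow_of_le_one (Real.sqrt_nonneg _) ?_ (by omega)
      refine Real.sqrt_le_iff.2 ⟨zero_le_one, ?_⟩
      have := sq_nonneg ‖ζ‖
      linarith
    rw [hG]
    simp only
    rw [norm_mul, norm_inv, norm_pow, le_div_iff₀ (by positivity)]
    have h7 : (‖1 - ζ‖ ^ (k + 2))⁻¹ * ‖F (psi z ζ)‖ * (1 - ‖ζ‖ ^ 2) ^ k * √z.im ^ (k + 2) ≤
        (‖1 - ζ‖ ^ (k + 2))⁻¹ * ‖F (psi z ζ)‖ * √(1 - ‖ζ‖ ^ 2) ^ (k + 2) * √z.im ^ (k + 2) := by
      gcongr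
    refine h7.trans (le_trans (le_of_eq ?_) h3)
    field_simp
  have h := disc_mean hGd k hb
  rw [integral_disc z]
  have h8 : ∀ ζ ∈ Metric.ball (0 : ℂ) 1,
      (4 / (1 - ‖ζ‖ ^ 2) ^ 2 : ℝ) • ((kk z (ofComplex (psi z ζ)) ^ (k + 2))⁻¹ *
        F (ofComplex (psi z ζ) : ℍ) * ((ofComplex (psi z ζ)).im : ℂ) ^ (k + 2)) =
      (4 : ℝ) • (((1 - ‖ζ‖ ^ 2) ^ k : ℝ) • G ζ) := by
    intro ζ hζ
    have h1 := norm_sq_lt hζ
    have h2 : (1 - ‖ζ‖ ^ 2 : ℂ) ≠ 0 := by
      have : (1 - ‖ζ‖ ^ 2 : ℝ) ≠ 0 := by linarith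
      exact_mod_cast this
    have hz : (z.im : ℂ) ≠ 0 := by exact_mod_cast z.im_ne_zero
    have h3 := one_sub_ne hζ
    have h4 : 1 - conj ζ ≠ 0 := by
      have := (map_ne_zero (starRingEnd ℂ)).2 h3
      rwa [map_sub, map_one] at this
    have h5 : (Complex.normSq (1 - ζ) : ℂ) = (1 - ζ) * (1 - conj ζ) := by
      rw [← Complex.mul_conj, map_sub, map_one]
    rw [kk_psi z hζ, im_psiH z hζ, coe_ofComplex_psi z hζ, hG]
    simp only [Complex.real_smul]
    push_cast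
    rw [h5]
    simp only [div_pow, mul_pow]
    field_simp
    ring
  rw [setIntegral_congr_fun Metric.isOpen_ball.measurableSet h8, integral_smul, h, hG]
  simp only [Complex.real_smul]
  have h9 : psi z 0 = z := by simp [psi]
  rw [h9]
  push_cast
  simp
  ring

end Pool.Agent.Y789.MF
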