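import Pool.Agent.Y789.MF.Unf

/-!
# The Poincaré series
-/

set_option autoImplicit false

open scoped MatrixGroups UpperHalfPlane ComplexConjugate NNReal ENNReal Topology
open MeasureTheory UpperHalfPlane Set Filter

namespace Pool.Agent.Y789.MF

open Pool.Agent.W711.KC (jj nn jj_ne im_mob jj_mul nn_mul det_eq)
open Pool.Agent.TH997.KG (VV isOpen_VV mob mob_coe)
open Pool.Agent.TH598.KG (Cutoff)
open Pool.Agent.H85R3

variable {Γ : Subgroup SL(2, ℝ)}

/-- The terms of the Poincaré series. -/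
noncomputable def term (m : ℕ) (z w : ℍ) (g : SL(2, ℝ)) : ℂ :=
  (kk z (g • w) ^ m * conj (jj g w) ^ m)⁻¹

/-- The Poincaré series. -/
noncomputable def PP (Γ : Subgroup SL(2, ℝ)) (m : ℕ) (z w : ℍ) : ℂ :=
  ∑' g : Γ, term m z w g.1

theorem summable_norm_term (hM : HS.MovesFar Γ 1) {m : ℕ} (hm : 4 ≤ m) (z w : ℍ) :
    Summable fun g : Γ => ‖term m z w g.1‖ := by
  have h1 : ∀ g : Γ, ‖term m z w g.1‖ = (√(z.im * w.im) ^ m)⁻¹ * SS z (g.1 • w) ^ m := fun g =>
    norm_term m z w g.1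
  simp only [h1]
  exact (summable_SS hM hm z w).mul_left _

theorem summable_term (hM : HS.MovesFar Γ 1) {m : ℕ} (hm : 4 ≤ m) (z w : ℍ) :
    Summable fun g : Γ => term m z w g.1 := (summable_norm_term hM hm z w).of_norm

theorem term_smul (m : ℕ) (z w : ℍ) (γ g : SL(2, ℝ)) :
    term m (γ • z) w (γ * g) = jj γ z ^ m * term m z w g := by
  have h1 := kk_smul γ z (g • w)
  have h2 := jj_ne' γ z
  have h3 : conj (jj γ ((g • w : ℍ) : ℂ)) ≠ 0 := by simpa using jj_ne' γ (g • w)
  have h4 : conj (jj g w) ≠ 0 := by simpa using jj_ne' g w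
  have h5 := kk_ne (γ • z) (γ • g • w)
  unfold term
  rw [mul_smul, jj_mul', ← h1, map_mul]
  simp only [mul_pow]
  field_simp

theorem PP_smul (m : ℕ) (z w : ℍ) {γ : SL(2, ℝ)} (hγ : γ ∈ Γ) :
    PP Γ m (γ • z) w = jj γ z ^ m * PP Γ m z w := by
  unfold PP
  rw [← (Equiv.mulLeft (⟨γ, hγ⟩ : Γ)).tsum_eq (fun g : Γ => term m (γ • z) w g.1), ← tsum_mul_left]
  exact tsum_congr fun g => term_smul m z w γ g.1

theorem conj_term (m : ℕ) (z w : ℍ) (g : SL(2, ℝ)) :
    conj (term m z w g) = term m w z g⁻¹ := by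
  have h1 := kk_smul g w (g⁻¹ • z)
  rw [smul_inv_smul] at h1
  have h2 : jj g ((g⁻¹ • z : ℍ) : ℂ) * jj g⁻¹ z = 1 := by
    rw [← jj_mul', mul_inv_cancel, jj_one]
  have h3 := congrArg conj h2
  rw [map_mul, map_one] at h3
  unfold term
  rw [map_inv₀, map_mul, map_pow, map_pow, Complex.conj_conj, conj_kk, ← h1, ← mul_pow, ← mul_pow]
  congr 2
  linear_combination (-(kk (g • w) z) * jj g w) * h3

theorem conj_PP (m : ℕ) (z w : ℍ) : conj (PP Γ m z w) = PP Γ m w z := by
  unfold PP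
  rw [Complex.conj_tsum, ← (Equiv.inv Γ).tsum_eq (fun g : Γ => term m w z g.1)]
  exact tsum_congr fun g => conj_term m z w g.1

theorem cutoff_summable {φ : ℂ → ℝ} (hφ : Cutoff Γ φ) (w : ℍ) :
    Summable fun g : Γ => φ ((g.1 • w : ℍ) : ℂ) := by
  by_contra h
  have h1 := hφ.sum w
  have h2 : ∑' g : Γ, φ (((g : SL(2, ℝ)) • w : ℍ) : ℂ) = 0 := tsum_eq_zero_of_not_summable h
  rw [h2] at h1
  exact zero_ne_one h1

/-- The unfolded reproducing formula. -/
theorem PP_repro [Countable Γ] {φ : ℂ → ℝ} (hφ : Cutoff Γ φ) {F : ℂ → ℂ}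
    (hF : DifferentiableOn ℂ F VV) {k : ℕ} (hk : 2 ≤ k) {M : ℝ}
    (hM : ∀ w : ℍ, ‖F w‖ * √w.im ^ (k + 2) ≤ M)
    (hw : ∀ g ∈ Γ, ∀ w : ℍ, F (g • w : ℍ) = jj g w ^ (k + 2) * F w) (z : ℍ) :
    ∫ w : ℍ, (φ w : ℂ) * (PP Γ (k + 2) z w * F w * (w.im : ℂ) ^ (k + 2)) =
      (4 * Real.pi / (k + 1) : ℝ) * F z := by
  have hFc : Continuous fun w : ℍ => F w := by
    refine continuous_iff_continuousAt.2 fun w => ?_
    exact (hF.continuousOn.continuousAt (isOpen_VV.mem_nhds w.im_pos)).comp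
      UpperHalfPlane.continuous_coe.continuousAt
  have hc : Continuous fun w : ℍ => (kk z w ^ (k + 2))⁻¹ * F w * (w.im : ℂ) ^ (k + 2) := by
    refine ((((continuous_kk_right z).pow _).inv₀ fun w => pow_ne_zero _ (kk_ne z w)).mul
      hFc).mul ?_
    exact (Complex.continuous_ofReal.comp continuous_im').pow _
  rw [← repro hF hk hM z, unfold hφ (cutoff_summable hφ) hc
    (integrable_kernel hFc (by omega) hM z)]
  refine integral_congr_ae (Eventually.of_forall fun w => ?_)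
  simp only
  congr 1
  unfold PP
  rw [← tsum_mul_right, ← tsum_mul_right]
  refine tsum_congr fun g => ?_
  rw [hw g.1 g.2 w, im_smul']
  have h1 := jj_ne' g.1 w
  have h2 : conj (jj g.1 w) ≠ 0 := by simpa using h1
  have h3 := kk_ne z (g.1 • w)
  unfold term
  push_cast
  rw [← Complex.mul_conj]
  simp only [mul_pow, div_pow]
  field_simp

theorem kk_ofComplex {z : ℂ} (hz : z ∈ VV) (w : ℍ) :
    kk (ofComplex z) w = (z - conj (w : ℂ)) / (2 * Complex.I) := by
  unfold kk
  rw [ofComplex_apply_of_im_pos hz]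

theorem PP_hol (hM : HS.MovesFar Γ 1) {m : ℕ} (hm : 4 ≤ m) (w : ℍ) :
    DifferentiableOn ℂ (fun z => PP Γ m (ofComplex z) w) VV := by
  intro z0 hz0
  set Z : ℍ := ⟨z0, hz0⟩ with hZ
  have hoc : ContinuousOn (fun z : ℂ => ofComplex z) VV := by
    intro z hz
    exact (UpperHalfPlane.contMDiffAt_ofComplex (n := 0) hz).continuousAt.continuousWithinAt
  set U : Set ℂ := VV ∩ (fun z : ℂ => ofComplex z) ⁻¹' Metric.ball Z 1 with hU
  have hUo : IsOpen U := hoc.isOpen_inter_preimage isOpen_VV Metric.isOpen_ball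
  have hz0U : z0 ∈ U := by
    refine ⟨hz0, ?_⟩
    change ofComplex z0 ∈ Metric.ball Z 1
    rw [ofComplex_apply_of_im_pos hz0]
    exact Metric.mem_ball_self one_pos
  have hd : DifferentiableOn ℂ (fun z => ∑' g : Γ, term m (ofComplex z) w g.1) U := by
    refine Complex.differentiableOn_tsum_of_summable_norm
      (u := fun g : Γ => (√(Z.im / Real.exp 1 * w.im) ^ m)⁻¹ *
        (Real.exp 2 * SS Z (g.1 • w) ^ 4)) ?_ ?_ hUo ?_
    · exact ((summable_SS4 hM Z w).mul_left _).mul_left _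
    · intro g
      have h1 : DifferentiableOn ℂ (fun z : ℂ => (((z - conj ((g.1 • w : ℍ) : ℂ)) /
          (2 * Complex.I)) ^ m * conj (jj g.1 w) ^ m)⁻¹) U := by
        refine DifferentiableOn.inv (by fun_prop) fun z hz => ?_
        refine mul_ne_zero (pow_ne_zero _ ?_) (pow_ne_zero _ (by simpa using jj_ne' g.1 w))
        rw [← kk_ofComplex hz.1]
        exact kk_ne _ _
      refine h1.congr fun z hz => ?_
      unfold term
      rw [kk_ofComplex hz.1]
    · intro g z hz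
      have hz1 : dist (ofComplex z) Z < 1 := hz.2
      unfold term
      rw [norm_term]
      have h2 : Z.im / Real.exp 1 ≤ (ofComplex z).im := by
        have h3 := UpperHalfPlane.im_div_exp_dist_le Z (ofComplex z)
        refine le_trans ?_ h3
        refine div_le_div_of_nonneg_left Z.im_pos.le (Real.exp_pos _) (Real.exp_le_exp.2 ?_)
        rw [dist_comm]
        exact hz1.le
      have h4 : 0 < Z.im / Real.exp 1 := div_pos Z.im_pos (Real.exp_pos _)
      have h5 : (√((ofComplex z).im * w.im) ^ m)⁻¹ ≤ (√(Z.im / Real.exp 1 * w.im) ^ m)⁻¹ := by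
        refine inv_anti₀ (pow_pos (Real.sqrt_pos.2 (mul_pos h4 w.im_pos)) m) ?_
        refine pow_le_pow_left₀ (Real.sqrt_nonneg _) (Real.sqrt_le_sqrt ?_) m
        exact mul_le_mul_of_nonneg_right h2 w.im_pos.le
      have h6 : SS (ofComplex z) (g.1 • w) ^ m ≤ Real.exp 2 * SS Z (g.1 • w) ^ 4 := by
        refine (pow_SS_le hm _ _).trans ?_
        have h7 := SS_harnack (g.1 • w) Z (ofComplex z)
        rw [SS_comm _ (ofComplex z), SS_comm _ Z] at h7
        have h8 : Real.exp (dist Z (ofComplex z) / 2) ≤ Real.exp (1 / 2) := by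
          refine Real.exp_le_exp.2 ?_
          rw [dist_comm]
          linarith
        have h9 := h7.trans (mul_le_mul_of_nonneg_right h8 (SS_pos Z (g.1 • w)).le)
        have h10 := pow_le_pow_left₀ (SS_pos _ _).le h9 4
        rw [mul_pow, ← Real.exp_nat_mul] at h10
        norm_num at h10
        exact h10
      exact mul_le_mul h5 h6 (pow_pos (SS_pos _ _) m).le (by positivity)
  exact ((hd z0 hz0U).differentiableAt (hUo.mem_nhds hz0U)).differentiableWithinAt

theorem kk_self (w : ℍ) : kk w w = w.im := by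
  unfold kk
  rw [Complex.sub_conj, UpperHalfPlane.coe_im]
  field_simp
  push_cast
  ring

/-- The constant. -/
noncomputable def q0 : ℝ := (Real.cosh (1 / 2))⁻¹

theorem q0_pos : 0 < q0 := inv_pos.2 (Real.cosh_pos _)

theorem q0_lt : q0 < 1 := inv_lt_one_of_one_lt₀ (Real.one_lt_cosh.2 (by norm_num))

theorem SS_le_q0 {z w : ℍ} (h : 1 ≤ dist z w) : SS z w ≤ q0 := by
  unfold SS q0
  refine inv_anti₀ (Real.cosh_pos _) ?_
  rw [Real.cosh_le_cosh, abs_of_pos (by norm_num), abs_of_nonneg (by positivity)]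
  linarith

/-- The diagonal values of the Poincaré series. -/
theorem PP_diag (hM : HS.MovesFar Γ 1) {m : ℕ} (hm : 4 ≤ m) (w : ℍ) :
    ‖PP Γ m w w * (w.im : ℂ) ^ m - 1‖ ≤ CC * q0 ^ (m - 4) := by
  classical
  have hs := summable_term hM hm w w
  have hw : (w.im : ℂ) ≠ 0 := by exact_mod_cast w.im_ne_zero
  have h1 : PP Γ m w w = term m w w 1 + ∑' g : Γ, if g = 1 then 0 else term m w w g.1 := by
    unfold PP
    rw [hs.tsum_eq_add_tsum_ite 1]
    rfl
  have h2 : term m w w 1 * (w.im : ℂ) ^ m = 1 := by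
    unfold term
    rw [one_smul, kk_self, jj_one]
    simp only [map_one, one_pow, mul_one]
    field_simp
  rw [h1, add_mul, h2, add_sub_cancel_left, norm_mul, norm_pow, Complex.norm_real,
    Real.norm_eq_abs, abs_of_pos w.im_pos]
  have h3 : ∀ g : Γ, ‖(if g = 1 then 0 else term m w w g.1)‖ ≤
      (w.im ^ m)⁻¹ * (q0 ^ (m - 4) * SS w (g.1 • w) ^ 4) := by
    intro g
    by_cases hg : g = 1
    · rw [if_pos hg, norm_zero]
      have := q0_pos
      have := w.im_pos
      have := SS_pos w (g.1 • w)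
      positivity
    · rw [if_neg hg]
      unfold term
      rw [norm_term, Real.sqrt_mul_self w.im_pos.le]
      refine mul_le_mul_of_nonneg_left ?_ (by have := w.im_pos; positivity)
      have h4 : SS w (g.1 • w) ≤ q0 := by
        refine SS_le_q0 (hM g.1 g.2 ?_ w)
        intro h
        exact hg (Subtype.ext h)
      have h5 : m = (m - 4) + 4 := by omega
      conv_lhs => rw [h5, pow_add]
      refine mul_le_mul_of_nonneg_right (pow_le_pow_left₀ (SS_pos _ _).le h4 _) ?_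
      have := SS_pos w (g.1 • w)
      positivity
  have h4 : Summable fun g : Γ => (w.im ^ m)⁻¹ * (q0 ^ (m - 4) * SS w (g.1 • w) ^ 4) :=
    ((summable_SS4 hM w w).mul_left _).mul_left _
  have h5 := tsum_of_norm_bounded h4.hasSum h3
  rw [tsum_mul_left, tsum_mul_left] at h5
  have h6 := tsum_SS4 hM w w
  have h7 : 0 < w.im ^ m := pow_pos w.im_pos m
  have h8 := pow_pos q0_pos (m - 4)
  calc _ ≤ (w.im ^ m)⁻¹ * (q0 ^ (m - 4) * ∑' g : Γ, SS w (g.1 • w) ^ 4) * w.im ^ m :=
        mul_le_mul_of_nonneg_right h5 h7.le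
    _ = q0 ^ (m - 4) * ∑' g : Γ, SS w (g.1 • w) ^ 4 := by field_simp
    _ ≤ q0 ^ (m - 4) * CC := mul_le_mul_of_nonneg_left h6 h8.le
    _ = _ := mul_comm _ _

end Pool.Agent.Y789.MF
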