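import Pool.Agent.Y789.MF.Mean

/-!
# Unfolding, and the uniform bound of the sums over the group
-/

set_option autoImplicit false

open scoped MatrixGroups UpperHalfPlane ComplexConjugate NNReal ENNReal
open MeasureTheory UpperHalfPlane Set

namespace Pool.Agent.Y789.MF

open Pool.Agent.TH997.KG (VV isOpen_VV mob mob_coe)
open Pool.Agent.TH598.KG (Cutoff)
open Pool.Agent.H85R3

section unf

variable {Γ : Subgroup SL(2, ℝ)} [Countable Γ] {φ : ℂ → ℝ}

theorem cont_phi (hφ : Cutoff Γ φ) : Continuous fun w : ℍ => φ (w : ℂ) :=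
  hφ.smooth.continuous.comp UpperHalfPlane.continuous_coe

theorem cont_smul (g : SL(2, ℝ)) : Continuous fun w : ℍ => g • w := continuous_const_smul g

theorem lunfold (hφ : Cutoff Γ φ) (hsum : ∀ w : ℍ, Summable fun g : Γ => φ ((g.1 • w : ℍ) : ℂ))
    {G : ℍ → ℝ≥0∞} (hG : Measurable G) :
    ∫⁻ w, G w = ∫⁻ w : ℍ, ENNReal.ofReal (φ w) * ∑' g : Γ, G (g.1 • w) := by
  have h1 : ∀ w : ℍ, G w = ∑' g : Γ, ENNReal.ofReal (φ ((g.1 • w : ℍ) : ℂ)) * G w := by
    intro w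
    rw [ENNReal.tsum_mul_right, ← ENNReal.ofReal_tsum_of_nonneg (fun g => hφ.nonneg _) (hsum w),
      hφ.sum w, ENNReal.ofReal_one, one_mul]
  have hφm : Measurable fun w : ℍ => ENNReal.ofReal (φ w) := (cont_phi hφ).measurable.ennreal_ofReal
  have h2 : ∀ g : SL(2, ℝ), Measurable fun w : ℍ => ENNReal.ofReal (φ ((g • w : ℍ) : ℂ)) := fun g =>
    hφm.comp (cont_smul g).measurable
  calc ∫⁻ w, G w = ∫⁻ w : ℍ, ∑' g : Γ, ENNReal.ofReal (φ ((g.1 • w : ℍ) : ℂ)) * G w :=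
        lintegral_congr h1
    _ = ∑' g : Γ, ∫⁻ w : ℍ, ENNReal.ofReal (φ ((g.1 • w : ℍ) : ℂ)) * G w :=
        lintegral_tsum fun g => ((h2 g).mul hG).aemeasurable
    _ = ∑' g : Γ, ∫⁻ w : ℍ, ENNReal.ofReal (φ w) * G (g.1⁻¹ • w) := by
        refine tsum_congr fun g => ?_
        have h3 := (measurePreserving_smul g.1 (volume : Measure ℍ)).lintegral_comp
          (f := fun w => ENNReal.ofReal (φ w) * G (g.1⁻¹ • w))
          (hφm.mul (hG.comp (cont_smul _).measurable))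
        rw [← h3]
        refine lintegral_congr fun w => ?_
        rw [inv_smul_smul]
    _ = ∑' g : Γ, ∫⁻ w : ℍ, ENNReal.ofReal (φ w) * G (g.1 • w) := by
        rw [← (Equiv.inv Γ).tsum_eq (fun g : Γ => ∫⁻ w : ℍ, ENNReal.ofReal (φ w) * G (g.1 • w))]
        rfl
    _ = ∫⁻ w : ℍ, ∑' g : Γ, ENNReal.ofReal (φ w) * G (g.1 • w) :=
        (lintegral_tsum fun g => (hφm.mul (hG.comp (cont_smul _).measurable)).aemeasurable).symm
    _ = _ := by
        refine lintegral_congr fun w => ?_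
        rw [ENNReal.tsum_mul_left]

theorem unfold (hφ : Cutoff Γ φ) (hsum : ∀ w : ℍ, Summable fun g : Γ => φ ((g.1 • w : ℍ) : ℂ))
    {G : ℍ → ℂ} (hGm : Continuous G) (hG : Integrable G) :
    ∫ w : ℍ, G w = ∫ w : ℍ, (φ w : ℂ) * ∑' g : Γ, G (g.1 • w) := by
  have h1 : ∀ w : ℍ, G w = ∑' g : Γ, (φ ((g.1 • w : ℍ) : ℂ) : ℂ) * G w := by
    intro w
    rw [tsum_mul_right, ← Complex.ofReal_tsum, hφ.sum w, Complex.ofReal_one, one_mul]
  have hφm : Continuous fun w : ℍ => (φ w : ℂ) := Complex.continuous_ofReal.comp (cont_phi hφ)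
  have hfin : ∑' g : Γ, ∫⁻ w : ℍ, ‖(φ ((g.1 • w : ℍ) : ℂ) : ℂ) * G w‖ₑ ≠ ∞ := by
    have h2 : ∀ g : Γ, ∫⁻ w : ℍ, ‖(φ ((g.1 • w : ℍ) : ℂ) : ℂ) * G w‖ₑ =
        ∫⁻ w : ℍ, ENNReal.ofReal (φ ((g.1 • w : ℍ) : ℂ)) * ‖G w‖ₑ := by
      intro g
      refine lintegral_congr fun w => ?_
      rw [enorm_mul]
      congr 1
      rw [← ofReal_norm_eq_enorm, Complex.norm_real, Real.norm_eq_abs, abs_of_nonneg (hφ.nonneg _)]
    rw [tsum_congr h2, ← lintegral_tsum]
    · have h3 : ∫⁻ w : ℍ, ∑' g : Γ, ENNReal.ofReal (φ ((g.1 • w : ℍ) : ℂ)) * ‖G w‖ₑ =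
          ∫⁻ w : ℍ, ‖G w‖ₑ := by
        refine lintegral_congr fun w => ?_
        rw [ENNReal.tsum_mul_right, ← ENNReal.ofReal_tsum_of_nonneg (fun g => hφ.nonneg _)
          (hsum w), hφ.sum w, ENNReal.ofReal_one, one_mul]
      rw [h3]
      exact hG.2.ne
    · intro g
      exact ((((cont_phi hφ).comp (cont_smul g.1)).measurable.ennreal_ofReal).mul
        hGm.measurable.enorm).aemeasurable
  calc ∫ w, G w = ∫ w : ℍ, ∑' g : Γ, (φ ((g.1 • w : ℍ) : ℂ) : ℂ) * G w :=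
        integral_congr_ae (Filter.Eventually.of_forall h1)
    _ = ∑' g : Γ, ∫ w : ℍ, (φ ((g.1 • w : ℍ) : ℂ) : ℂ) * G w :=
        integral_tsum (fun g => ((hφm.comp (cont_smul g.1)).mul hGm).aestronglyMeasurable) hfin
    _ = ∑' g : Γ, ∫ w : ℍ, (φ w : ℂ) * G (g.1⁻¹ • w) := by
        refine tsum_congr fun g => ?_
        have h3 := (measurePreserving_smul g.1 (volume : Measure ℍ)).integral_comp
          (measurableEmbedding_const_smul g.1) (fun w : ℍ => (φ w : ℂ) * G (g.1⁻¹ • w))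
        rw [← h3]
        refine integral_congr_ae (Filter.Eventually.of_forall fun w => ?_)
        simp only
        rw [inv_smul_smul]
    _ = ∑' g : Γ, ∫ w : ℍ, (φ w : ℂ) * G (g.1 • w) := by
        rw [← (Equiv.inv Γ).tsum_eq (fun g : Γ => ∫ w : ℍ, (φ w : ℂ) * G (g.1 • w))]
        rfl
    _ = ∫ w : ℍ, ∑' g : Γ, (φ w : ℂ) * G (g.1 • w) := by
        symm
        refine integral_tsum (fun g => (hφm.mul (hGm.comp (cont_smul g.1))).aestronglyMeasurable) ?_
        have h2 : ∀ g : Γ, ∫⁻ w : ℍ, ‖(φ w : ℂ) * G (g.1 • w)‖ₑ =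
            ∫⁻ w : ℍ, ENNReal.ofReal (φ w) * ‖G (g.1 • w)‖ₑ := by
          intro g
          refine lintegral_congr fun w => ?_
          rw [enorm_mul]
          congr 1
          rw [← ofReal_norm_eq_enorm, Complex.norm_real, Real.norm_eq_abs,
            abs_of_nonneg (hφ.nonneg _)]
        rw [tsum_congr h2, ← lintegral_tsum]
        · have h4 : ∀ w : ℍ, ∑' g : Γ, ENNReal.ofReal (φ w) * ‖G (g.1 • w)‖ₑ =
              ENNReal.ofReal (φ w) * ∑' g : Γ, ‖G (g.1 • w)‖ₑ := fun w => ENNReal.tsum_mul_left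
          rw [lintegral_congr h4, ← lunfold hφ hsum (G := fun w => ‖G w‖ₑ) hGm.measurable.enorm]
          exact hG.2.ne
        · intro g
          exact ((cont_phi hφ).measurable.ennreal_ofReal.mul
            (hGm.comp (cont_smul g.1)).measurable.enorm).aemeasurable
    _ = _ := by
        refine integral_congr_ae (Filter.Eventually.of_forall fun w => ?_)
        simp only
        rw [tsum_mul_left]

end unf

section bound

variable {Γ : Subgroup SL(2, ℝ)}

/-- The volume of a ball of radius `1 / 2`. -/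
noncomputable def vb : ℝ := ((volume : Measure ℍ) (Metric.ball UpperHalfPlane.I (1 / 2))).toReal

theorem vb_fin : (volume : Measure ℍ) (Metric.ball UpperHalfPlane.I (1 / 2)) < ⊤ :=
  (measure_mono Metric.ball_subset_closedBall).trans_lt
    (isCompact_closedBall UpperHalfPlane.I (1 / 2)).measure_lt_top

theorem vb_pos : 0 < vb :=
  ENNReal.toReal_pos (HS.volume_ball_ne_zero (by norm_num)) vb_fin.ne

/-- The uniform bound. -/
noncomputable def CC : ℝ := Real.exp 1 * (4 * Real.pi) / vb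

theorem CC_pos : 0 < CC := by
  have := vb_pos
  have := Real.pi_pos
  unfold CC
  positivity

theorem sum_SS4_fin (hM : HS.MovesFar Γ 1) (z w : ℍ) (s : Finset Γ) :
    ∑ g ∈ s, SS z (g.1 • w) ^ 4 ≤ CC := by
  have h1 : ∀ g : Γ, ∀ u ∈ Metric.ball (g.1 • w) (1 / 2 : ℝ),
      Real.exp (-1) * SS z (g.1 • w) ^ 4 ≤ SS z u ^ 4 := by
    intro g u hu
    have h2 := SS_harnack z u (g.1 • w)
    have h3 : dist u (g.1 • w) ≤ 1 / 2 := (Metric.mem_ball.1 hu).le
    have h4 : SS z (g.1 • w) ≤ Real.exp (1 / 4) * SS z u := by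
      refine h2.trans (mul_le_mul_of_nonneg_right (Real.exp_le_exp.2 (by linarith)) (SS_pos z u).le)
    have h5 := pow_le_pow_left₀ (SS_pos z _).le h4 4
    rw [mul_pow, ← Real.exp_nat_mul] at h5
    have h6 : ((4 : ℕ) : ℝ) * (1 / 4) = 1 := by norm_num
    rw [h6] at h5
    rw [Real.exp_neg, inv_mul_le_iff₀ (Real.exp_pos 1)]
    exact h5
  have hdisj : (s : Set Γ).PairwiseDisjoint fun g : Γ => Metric.ball (g.1 • w) (1 / 2 : ℝ) := by
    intro g _ g' _ hne
    refine Set.disjoint_left.mpr fun u hu hu' => hne ?_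
    apply Subtype.ext
    refine hM.eq_of_dist_lt g.2 g'.2 (z := w) ?_
    rw [Metric.mem_ball] at hu hu'
    calc dist (g.1 • w) (g'.1 • w) ≤ dist (g.1 • w) u + dist u (g'.1 • w) := dist_triangle _ _ _
      _ < 1 := by rw [dist_comm _ u]; linarith
  have hi := integrable_SS4 z
  have h2 : ∑ g ∈ s, ∫ u in Metric.ball (g.1 • w) (1 / 2 : ℝ), SS z u ^ 4 =
      ∫ u in ⋃ g ∈ s, Metric.ball (g.1 • w) (1 / 2 : ℝ), SS z u ^ 4 :=
    (integral_biUnion_finset s (fun g _ => Metric.isOpen_ball.measurableSet) hdisj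
      (fun g _ => hi.integrableOn)).symm
  have h3 : ∫ u in ⋃ g ∈ s, Metric.ball (g.1 • w) (1 / 2 : ℝ), SS z u ^ 4 ≤ 4 * Real.pi := by
    rw [← integral_SS4 z]
    exact setIntegral_le_integral hi (Filter.Eventually.of_forall fun u => by positivity)
  have hv : ∀ g : Γ, (volume : Measure ℍ).real (Metric.ball (g.1 • w) (1 / 2 : ℝ)) = vb := by
    intro g
    rw [Measure.real, HS.volume_ball]
    rfl
  have h4 : ∀ g ∈ s, Real.exp (-1) * SS z (g.1 • w) ^ 4 * vb ≤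
      ∫ u in Metric.ball (g.1 • w) (1 / 2 : ℝ), SS z u ^ 4 := by
    intro g _
    have h5 : Real.exp (-1) * SS z (g.1 • w) ^ 4 * vb =
        ∫ _u in Metric.ball (g.1 • w) (1 / 2 : ℝ), Real.exp (-1) * SS z (g.1 • w) ^ 4 := by
      rw [setIntegral_const, hv g, smul_eq_mul, mul_comm]
    rw [h5]
    refine setIntegral_mono_on (integrableOn_const ?_) hi.integrableOn
      Metric.isOpen_ball.measurableSet fun u hu => h1 g u hu
    rw [HS.volume_ball]
    exact vb_fin.ne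
  have h5 := Finset.sum_le_sum h4
  rw [h2, ← Finset.sum_mul, ← Finset.mul_sum] at h5
  have h6 := h5.trans h3
  have hb := vb_pos
  unfold CC
  rw [le_div_iff₀ hb]
  rw [Real.exp_neg, mul_assoc, inv_mul_le_iff₀ (Real.exp_pos 1)] at h6
  exact h6

theorem summable_SS4 (hM : HS.MovesFar Γ 1) (z w : ℍ) :
    Summable fun g : Γ => SS z (g.1 • w) ^ 4 :=
  summable_of_sum_le (fun g => (pow_pos (SS_pos _ _) 4).le) (sum_SS4_fin hM z w)

theorem tsum_SS4 (hM : HS.MovesFar Γ 1) (z w : ℍ) :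
    ∑' g : Γ, SS z (g.1 • w) ^ 4 ≤ CC :=
  (summable_SS4 hM z w).tsum_le_of_sum_le (sum_SS4_fin hM z w)

theorem pow_SS_le {m : ℕ} (hm : 4 ≤ m) (z w : ℍ) : SS z w ^ m ≤ SS z w ^ 4 :=
  pow_le_pow_of_le_one (SS_pos z w).le (SS_le_one z w) hm

theorem summable_SS (hM : HS.MovesFar Γ 1) {m : ℕ} (hm : 4 ≤ m) (z w : ℍ) :
    Summable fun g : Γ => SS z (g.1 • w) ^ m :=
  (summable_SS4 hM z w).of_nonneg_of_le (fun g => (pow_pos (SS_pos _ _) m).le)
    fun g => pow_SS_le hm _ _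

end bound

end Pool.Agent.Y789.MF
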